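import Pool.Agent.H52.QC.Def

/-!
# H52 QC CNT: the dimension count `100 > 95`

`dim_F D = 25`, `dim_F K = 5`, `Ψ : D → Matrix (Fin 5) (Fin 5) K` linear over `F`, `θ : K`. There are
`x 0, ..., x 3` in `D`, not all zero, such that `∑ j, θ ^ j • Ψ (x j)` is supported in the upper right `3 x 2` block.

Proof: as `Pool.Agent.H84.CY.lin` (file H84/CY/Lin.lean, copy it). The conditions are `19` equations in `K`
(`ι = {q : Fin 5 × Fin 5 // ¬ (q.1.val < 3 ∧ 3 ≤ q.2.val)}`, `Fintype.card ι = 19` by `decide` or `rfl`), so the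
`F`-linear map `Φ : (Fin 4 → D) →ₗ[F] (ι → K)` goes from dimension `100` to dimension `95` and has a nonzero kernel
(`LinearMap.exists_ne_zero_of_finrank_lt` or `LinearMap.finrank_range_add_finrank_ker`).
-/

set_option autoImplicit false

universe u v w

namespace Pool.Agent.H52.QC

theorem cnt_card :
    Fintype.card {q : Fin 5 × Fin 5 // ¬ (q.1.val < 3 ∧ 3 ≤ q.2.val)} = 19 := by
  decide

theorem cnt {F : Type u} {D : Type v} {K : Type w} [Field F] [Ring D] [Algebra F D] [Field K] [Algebra F K]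
    [FiniteDimensional F D] [FiniteDimensional F K] (hD : Module.finrank F D = 25)
    (hK : Module.finrank F K = 5) (θ : K) (Ψ : D →ₗ[F] Matrix (Fin 5) (Fin 5) K) :
    ∃ x : Fin (3 + 1) → D, x ≠ 0 ∧ Blk (∑ j : Fin (3 + 1), θ ^ (j : ℕ) • Ψ (x j)) := by
  classical
  have hs : ∀ (c : F) (k : K) (A : Matrix (Fin 5) (Fin 5) K), k • (c • A) = c • (k • A) :=
    fun c k A => smul_comm k c A
  let L : (Fin (3 + 1) → D) →ₗ[F] Matrix (Fin 5) (Fin 5) K :=
    { toFun := fun x => ∑ j : Fin (3 + 1), θ ^ (j : ℕ) • Ψ (x j)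
      map_add' := by
        intro x y
        rw [← Finset.sum_add_distrib]
        refine Finset.sum_congr rfl fun j _ => ?_
        rw [Pi.add_apply, map_add, smul_add]
      map_smul' := by
        intro c x
        rw [RingHom.id_apply, Finset.smul_sum]
        refine Finset.sum_congr rfl fun j _ => ?_
        rw [Pi.smul_apply, map_smul, hs] }
  let Φ : (Fin (3 + 1) → D) →ₗ[F] ({q : Fin 5 × Fin 5 // ¬ (q.1.val < 3 ∧ 3 ≤ q.2.val)} → K) :=
    { toFun := fun x q => L x q.1.1 q.1.2
      map_add' := by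
        intro x y
        funext q
        rw [map_add, Pi.add_apply, Matrix.add_apply]
      map_smul' := by
        intro c x
        funext q
        rw [map_smul, Pi.smul_apply, Matrix.smul_apply, RingHom.id_apply] }
  have h1 : Module.finrank F (Fin (3 + 1) → D) = 100 := by
    rw [Module.finrank_pi_fintype, Finset.sum_const, hD]
    simp
  have h2 : Module.finrank F ({q : Fin 5 × Fin 5 // ¬ (q.1.val < 3 ∧ 3 ≤ q.2.val)} → K) = 95 := by
    rw [Module.finrank_pi_fintype, Finset.sum_const, hK, Finset.card_univ, cnt_card]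
    norm_num
  have h3 := LinearMap.finrank_range_add_finrank_ker Φ
  have h4 : Module.finrank F (LinearMap.range Φ) ≤ 95 := h2 ▸ Submodule.finrank_le _
  have h6 : LinearMap.ker Φ ≠ ⊥ := by
    intro h
    rw [h, finrank_bot] at h3
    omega
  obtain ⟨x, hx, hx0⟩ := (Submodule.ne_bot_iff _).1 h6
  rw [LinearMap.mem_ker] at hx
  exact ⟨x, hx0, fun i j hij => congrFun hx ⟨(i, j), hij⟩⟩

end Pool.Agent.H52.QC
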