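import Pool.Agent.H52.QC.Def
import Pool.Agent.H84.CY.Rat

/-!
# H52 QC DBL: a double zero at `θ`

`P` in `K[X]` takes values in `F` at the points of `F` (so `P = Q0.map`, `Pool.Agent.H84.CY.rat_poly`) and has a double
zero at `θ`, `f = minpoly F θ` of degree `5`, `5 ≠ 0` in `F`. Then `P = (f ^ 2 * Q).map`.

Proof. `aeval θ Q0 = 0` gives `Q0 = f * Q1` (`minpoly.dvd`). `derivative`: `aeval θ (Q0') = 0`, and
`Q0' = f' Q1 + f Q1'`, so `aeval θ f' * aeval θ Q1 = 0`. `f' ≠ 0` since its coefficient at `4` is `5` (`f` monic), and it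
has degree `< 5`, so `aeval θ f' ≠ 0` (`minpoly.dvd` and `Polynomial.eq_zero_of_dvd_of_natDegree_lt`). So
`aeval θ Q1 = 0`, `Q1 = f * Q`.
-/

set_option autoImplicit false

universe u v w

open Polynomial

namespace Pool.Agent.H52.QC

theorem dbl {F : Type u} {K : Type w} [Field F] [Infinite F] [Field K] [Algebra F K] (θ : K)
    (hθ : (minpoly F θ).natDegree = 5) (h5 : (5 : F) ≠ 0) (P : K[X])
    (hP : ∀ t : F, P.eval (algebraMap F K t) ∈ Set.range (algebraMap F K)) (h0 : P.eval θ = 0)
    (h1 : P.derivative.eval θ = 0) :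
    ∃ Q : F[X], P = ((minpoly F θ) ^ 2 * Q).map (algebraMap F K) := by
  obtain ⟨Q0, rfl⟩ := Pool.Agent.H84.CY.rat_poly P hP
  have hint : IsIntegral F θ := by
    by_contra hcon
    rw [minpoly.eq_zero hcon, natDegree_zero] at hθ
    omega
  rw [eval_map_algebraMap] at h0
  rw [derivative_map, eval_map_algebraMap] at h1
  obtain ⟨Q1, hQ1⟩ := minpoly.dvd F θ h0
  have hf' : aeval θ (derivative (minpoly F θ)) ≠ 0 := by
    intro h2
    have h3 : (derivative (minpoly F θ)).natDegree ≤ 4 := by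
      refine (natDegree_derivative_le _).trans ?_
      rw [hθ]
    have h4 : derivative (minpoly F θ) = 0 :=
      eq_zero_of_dvd_of_natDegree_lt (minpoly.dvd F θ h2) (by rw [hθ]; omega)
    have h6 := congrArg (fun q : F[X] => q.coeff 4) h4
    simp only [coeff_derivative, coeff_zero] at h6
    have h7 : (minpoly F θ).coeff (4 + 1) = 1 := by
      have := (minpoly.monic hint).coeff_natDegree
      rwa [hθ] at this
    rw [h7, one_mul] at h6
    apply h5
    rw [← h6]
    push_cast
    norm_num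
  have h2 : aeval θ Q1 = 0 := by
    rw [hQ1, derivative_mul, map_add, map_mul, map_mul, minpoly.aeval, zero_mul, add_zero] at h1
    exact (mul_eq_zero.mp h1).resolve_left hf'
  obtain ⟨Q, hQ⟩ := minpoly.dvd F θ h2
  exact ⟨Q, by rw [hQ1, hQ, pow_two, mul_assoc]⟩

end Pool.Agent.H52.QC
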