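import Pool.Agent.H52.QC.Def

/-!
# H52 QC IND: scalars in a quadratic extension

`E / F` a field extension, `r` in `E` not in `F`, `D` a nontrivial `F`-algebra, `y0`, `y1` in `D`. If
`1 ⊗ y0 + r • (1 ⊗ y1)` is a scalar `e` of `E ⊗ D`, then `y0` and `y1` are scalars.

Proof. If `y1` is not in `F * 1`, choose a linear functional `l : D →ₗ[F] F` with `l 1 = 0`, `l y1 ≠ 0` (for instance
`Submodule.exists_le_ker_of_notMem` / `Submodule.exists_dual_map_eq_bot_of_notMem`, `y1 ∉ span F {1}`). The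
`E`-linear map `E ⊗ D → E`, `e ⊗ d ↦ l d • e` (`TensorProduct.AlgebraTensorModule.lift` or
`LinearMap.baseChange E l` followed by `TensorProduct.rid`) gives `l y0 + r l y1 = 0`, so `r` is in `F`. So `y1 = c1`, and then
`1 ⊗ y0` is the scalar `e - r c1`; if `y0` is not in `F * 1` choose `l` with `l 1 = 0`, `l y0 ≠ 0`: `l y0 = 0`.
-/

set_option autoImplicit false

universe u v w

open TensorProduct

namespace Pool.Agent.H52.QC

private theorem ind_key {F : Type u} {D : Type v} {E : Type w} [Field F] [Ring D] [Algebra F D]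
    [Field E] [Algebra F E] (r : E) (y0 y1 : D) (e : E)
    (h : (1 : E) ⊗ₜ[F] y0 + r • ((1 : E) ⊗ₜ[F] y1) = algebraMap E (E ⊗[F] D) e)
    (l : D →ₗ[F] F) :
    algebraMap F E (l y0) + r * algebraMap F E (l y1) = algebraMap F E (l 1) * e := by
  have h1 := congrArg (fun t => (TensorProduct.AlgebraTensorModule.rid F E E)
    ((LinearMap.baseChange E l) t)) h
  simp only [map_add, map_smul, LinearMap.baseChange_tmul,
    TensorProduct.AlgebraTensorModule.rid_tmul, Algebra.TensorProduct.algebraMap_apply] at h1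
  simpa [Algebra.smul_def] using h1

private theorem ind_fun {F : Type u} {D : Type v} [Field F] [Ring D] [Algebra F D] {y : D}
    (hy : y ∉ Set.range (algebraMap F D)) : ∃ l : D →ₗ[F] F, l 1 = 0 ∧ l y ≠ 0 := by
  have h1 : y ∉ Submodule.span F {(1 : D)} := by
    intro h2
    obtain ⟨c, hc⟩ := Submodule.mem_span_singleton.1 h2
    exact hy ⟨c, by rw [Algebra.algebraMap_eq_smul_one]; exact hc⟩
  obtain ⟨l, h2, h3⟩ := Submodule.exists_le_ker_of_notMem h1
  exact ⟨l, h3 (Submodule.mem_span_singleton_self 1), h2⟩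

theorem ind {F : Type u} {D : Type v} {E : Type w} [Field F] [Ring D] [Algebra F D] [Field E] [Algebra F E]
    (r : E) (hr : r ∉ Set.range (algebraMap F E)) (y0 y1 : D) (e : E)
    (h : (1 : E) ⊗ₜ[F] y0 + r • ((1 : E) ⊗ₜ[F] y1) = algebraMap E (E ⊗[F] D) e) :
    y0 ∈ Set.range (algebraMap F D) ∧ y1 ∈ Set.range (algebraMap F D) := by
  have key := ind_key r y0 y1 e h
  have h1 : y1 ∈ Set.range (algebraMap F D) := by
    by_contra hc
    obtain ⟨l, h2, h3⟩ := ind_fun hc
    have h4 := key l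
    rw [h2, map_zero, zero_mul] at h4
    have h5 : algebraMap F E (l y1) ≠ 0 := by
      rw [Ne, map_eq_zero]
      exact h3
    apply hr
    refine ⟨-(l y0) / l y1, ?_⟩
    rw [map_div₀, map_neg, div_eq_iff h5]
    linear_combination -h4
  refine ⟨?_, h1⟩
  obtain ⟨c, rfl⟩ := h1
  by_contra hc
  obtain ⟨l, h2, h3⟩ := ind_fun hc
  have h4 := key l
  have h5 : l (algebraMap F D c) = 0 := by
    rw [Algebra.algebraMap_eq_smul_one, map_smul, h2, smul_zero]
  rw [h5, h2, map_zero, mul_zero, zero_mul, add_zero, map_eq_zero] at h4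
  exact h3 h4

end Pool.Agent.H52.QC
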