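import Pool.Agent.H52.QC.Def

/-!
# H52 QC ORD: orders of vanishing of the coefficients of the characteristic polynomial

`B j`, `j = 0, ..., d`, are matrices of size `5` over an infinite field `K`, `A(t) = ∑ t ^ j B j`, and `A(θ)` is supported
in the upper right `3 x 2` block. `P` is a polynomial with `P(t) = ` coefficient of `X ^ i` in the characteristic
polynomial of `A(t)`, `i ≤ 4`. Then `P(θ) = 0`, and `P'(θ) = 0` if `i ≤ 2`.

Proof. Entries: `A_ij(X) = ∑ l, B l i j X ^ l` in `K[X]`; `C_ij` with `A_ij(X) = A_ij(θ) + (X - θ) C_ij(X)`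
(`Polynomial.X_sub_C_mul_divByMonic_eq_sub_modByMonic`, or `(X - C a) ∣ p - C (p.eval a)`:
`Polynomial.X_sub_C_dvd_sub_C_eval`). Let `q = X ^ 2 + C θ` and let `B'` be the matrix over `K[X]` (variable `S`)
with entries: `X * C_ij.comp q` if (`i < 3` and `j < 3`) or (`3 ≤ i` and `3 ≤ j`); `A_ij.comp q` if `i < 3 ≤ j`;
`C_ij.comp q` if `3 ≤ i`, `j < 3`. For `s ≠ 0` in `K`, `g = diag(1,1,1,s,s)`:
`A(θ + s ^ 2) * g = s • (g * B'(s))`: entrywise, using `A_ij(θ) = 0` outside the block. `g` is invertible, so
`charpoly A(θ + s ^ 2) = charpoly (s • B'(s))` (`Matrix.charpoly_units_conj` or `Matrix.charpoly_mul_comm`: `A g = s g B'` gives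
`A = (s g B') g⁻¹`, `charpoly = charpoly (g⁻¹ (s g B'))`). The coefficient of `X ^ i` in `charpoly (s • B'(s))` is
`s ^ (5 - i)` times the one of `charpoly B'(s)` (prove: `(charpoly (s • N)).comp (C s * X) = C (s ^ 5) * charpoly N`,
from `det (s X - s N) = s ^ 5 det (X - N)`, and compare coefficients; or `Matrix.charpoly_smul`-like lemmas if Mathlib
has them). With `Q` = coefficient of `X ^ i` of `B'.charpoly` (a polynomial in `S`; `Matrix.charpoly_map`,
`evalRingHom s`), `P(θ + s ^ 2) = s ^ (5 - i) * Q(s)` for all `s ≠ 0`, so `P.comp q = X ^ (5 - i) * Q`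
(`Polynomial.eq_of_infinite_eval_eq`; `K` is infinite). Finally `P.comp q = (Polynomial.taylor θ P).comp (X ^ 2) =
Polynomial.expand K 2 (taylor θ P)`, so the coefficient `0` (`1`) of `taylor θ P` is the coefficient `0` (`2`) of
`X ^ (5 - i) * Q`, which is `0` if `5 - i > 0` (if `5 - i > 2`). `Polynomial.taylor_coeff_zero`, `taylor_coeff_one`.
-/

set_option autoImplicit false

universe u v w

open Polynomial

namespace Pool.Agent.H52.QC

theorem ord {K : Type w} [Field K] [Infinite K] {d : ℕ} (B : Fin (d + 1) → Matrix (Fin 5) (Fin 5) K) (θ : K)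
    (hB : Blk (∑ j : Fin (d + 1), θ ^ (j : ℕ) • B j)) (i : ℕ) (hi : i ≤ 4) (P : K[X])
    (hP : ∀ t : K, P.eval t = (∑ j : Fin (d + 1), t ^ (j : ℕ) • B j).charpoly.coeff i) :
    P.eval θ = 0 ∧ (i ≤ 2 → P.derivative.eval θ = 0) := by
  classical
  let A : Fin 5 → Fin 5 → K[X] := fun i j => ∑ l : Fin (d + 1), C (B l i j) * X ^ (l : ℕ)
  have hA : ∀ (t : K) (i j : Fin 5), (A i j).eval t =
      (∑ l : Fin (d + 1), t ^ (l : ℕ) • B l) i j := by
    intro t i j
    simp only [A, eval_finsetSum, eval_mul, eval_C, eval_pow, eval_X, Matrix.sum_apply,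
      Matrix.smul_apply, smul_eq_mul]
    exact Finset.sum_congr rfl fun l _ => mul_comm _ _
  have hdvd : ∀ i j : Fin 5, ∃ c : K[X], ¬ (i.val < 3 ∧ 3 ≤ j.val) → A i j = (X - C θ) * c := by
    intro i j
    by_cases h : i.val < 3 ∧ 3 ≤ j.val
    · exact ⟨0, fun h' => absurd h h'⟩
    · obtain ⟨c, hc⟩ := dvd_iff_isRoot.2 (show (A i j).IsRoot θ by
        rw [IsRoot.def, hA]
        exact hB i j h)
      exact ⟨c, fun _ => hc⟩
  choose Cc hC using hdvd
  let q : K[X] := X ^ 2 + C θ
  have hq : ∀ s : K, q.eval s = s ^ 2 + θ := fun s => by simp [q]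
  have hAC : ∀ i j : Fin 5, ¬ (i.val < 3 ∧ 3 ≤ j.val) → ∀ s : K,
      (A i j).eval (s ^ 2 + θ) = s ^ 2 * ((Cc i j).comp q).eval s := by
    intro i j h s
    rw [hC i j h, eval_mul, eval_sub, eval_X, eval_C, eval_comp, hq]
    ring
  let B' : Matrix (Fin 5) (Fin 5) K[X] := Matrix.of fun i j =>
    if i.val < 3 then (if j.val < 3 then X * (Cc i j).comp q else (A i j).comp q)
    else (if j.val < 3 then (Cc i j).comp q else X * (Cc i j).comp q)
  have hkey : ∀ s : K, P.eval (s ^ 2 + θ) * s ^ i * s = s * (s ^ 5 * (B'.charpoly.coeff i).eval s) := by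
    intro s
    by_cases hs : s = 0
    · rw [hs]
      ring
    let N : Matrix (Fin 5) (Fin 5) K := B'.map (evalRingHom s)
    let At : Matrix (Fin 5) (Fin 5) K := ∑ l : Fin (d + 1), (s ^ 2 + θ) ^ (l : ℕ) • B l
    let g : Fin 5 → K := fun j => if j.val < 3 then 1 else s
    have hent : ∀ i j : Fin 5, At i j * g j = s * (g i * N i j) := by
      intro i j
      have h0 : At i j = (A i j).eval (s ^ 2 + θ) := (hA _ _ _).symm
      have hN : N i j = (B' i j).eval s := rfl
      rw [h0, hN]
      by_cases hi : i.val < 3 <;> by_cases hj : j.val < 3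
      · have h1 : B' i j = X * (Cc i j).comp q := by simp [B', hi, hj]
        rw [h1, hAC i j (by omega), eval_mul, eval_X]
        simp only [g, hi, hj, if_true]
        ring
      · have h1 : B' i j = (A i j).comp q := by simp [B', hi, hj]
        rw [h1, eval_comp, hq]
        simp only [g, hi, hj, if_true, if_false]
        ring
      · have h1 : B' i j = (Cc i j).comp q := by simp [B', hi, hj]
        rw [h1, hAC i j (by omega)]
        simp only [g, hi, hj, if_true, if_false]
        ring
      · have h1 : B' i j = X * (Cc i j).comp q := by simp [B', hi, hj]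
        rw [h1, hAC i j (by omega), eval_mul, eval_X]
        simp only [g, hi, hj, if_false]
        ring
    have hdet : ∀ x : K, At.charpoly.eval (s * x) = s ^ 5 * N.charpoly.eval x := by
      intro x
      rw [Matrix.eval_charpoly, Matrix.eval_charpoly]
      have hmat : (Matrix.scalar (Fin 5) (s * x) - At) * Matrix.diagonal g =
          s • (Matrix.diagonal g * (Matrix.scalar (Fin 5) x - N)) := by
        ext i j
        rw [Matrix.mul_diagonal, Matrix.smul_apply, Matrix.diagonal_mul, Matrix.sub_apply,
          Matrix.sub_apply, Matrix.scalar_apply, Matrix.scalar_apply, Matrix.diagonal_apply,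
          Matrix.diagonal_apply, smul_eq_mul, sub_mul, hent i j]
        by_cases hij : i = j
        · rw [if_pos hij, if_pos hij, hij]
          ring
        · rw [if_neg hij, if_neg hij]
          ring
      have hd := congrArg Matrix.det hmat
      rw [Matrix.det_mul, Matrix.det_smul, Matrix.det_mul, Fintype.card_fin] at hd
      have hg : (Matrix.diagonal g).det ≠ 0 := by
        rw [Matrix.det_diagonal, Finset.prod_ne_zero_iff]
        intro j _
        simp only [g]
        split_ifs
        · exact one_ne_zero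
        · exact hs
      apply mul_right_cancel₀ hg
      rw [hd]
      ring
    have hpoly : At.charpoly.comp (C s * X) = C (s ^ 5) * N.charpoly := by
      apply Polynomial.funext
      intro x
      rw [eval_comp, eval_mul, eval_C, eval_X, eval_mul, eval_C, hdet]
    have hco := congrArg (fun p => p.coeff i) hpoly
    simp only [comp_C_mul_X_coeff, coeff_C_mul] at hco
    have hNc : N.charpoly.coeff i = (B'.charpoly.coeff i).eval s := by
      have : N.charpoly = B'.charpoly.map (evalRingHom s) := Matrix.charpoly_map B' (evalRingHom s)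
      rw [this, coeff_map]
      rfl
    rw [hP (s ^ 2 + θ)]
    rw [hNc] at hco
    rw [hco]
    ring
  have hpol : P.comp q * X ^ i * X = X * (X ^ 5 * B'.charpoly.coeff i) := by
    apply Polynomial.funext
    intro s
    simp only [eval_mul, eval_comp, eval_pow, eval_X, hq]
    exact hkey s
  have hX : (X : K[X]) ≠ 0 := X_ne_zero
  have hpol2 : P.comp q = X ^ (5 - i) * B'.charpoly.coeff i := by
    have h1 : (X : K[X]) ^ 5 = X ^ (5 - i) * X ^ i := by
      rw [← pow_add]
      congr 1
      omega
    have h2 : (X : K[X]) ^ i * X ≠ 0 := mul_ne_zero (pow_ne_zero _ hX) hX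
    apply mul_right_cancel₀ h2
    rw [← mul_assoc, hpol, h1]
    ring
  have htay : expand K 2 (taylor θ P) = X ^ (5 - i) * B'.charpoly.coeff i := by
    rw [← hpol2, expand_eq_comp_X_pow, taylor_apply, comp_assoc]
    congr 1
    simp [q]
  constructor
  · have h1 := congrArg (fun p => p.coeff 0) htay
    beta_reduce at h1
    rw [coeff_expand (by norm_num), coeff_X_pow_mul'] at h1
    rw [if_pos (dvd_zero 2), if_neg (by omega), Nat.zero_div, taylor_coeff_zero] at h1
    exact h1
  · intro hi2
    have h1 := congrArg (fun p => p.coeff 2) htay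
    beta_reduce at h1
    rw [coeff_expand (by norm_num), coeff_X_pow_mul'] at h1
    rw [if_pos (dvd_refl 2), if_neg (by omega), Nat.div_self (by norm_num), taylor_coeff_one] at h1
    exact h1

end Pool.Agent.H52.QC
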