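import Pool.Agent.H52.QC.Def

/-!
# H52 QC POL: a polynomial identity extends from `F` to `E`

`F` infinite, `z(t) = ∑ t ^ j x j` with `x j` in an `F`-algebra `D` (any ring), and
`z(t) ^ 5 + Q3(t) z(t) ^ 3 + Q1(t) z(t) + Q0(t) = 0` for all `t` in `F`. Then the same identity holds in `E ⊗ D` for
`z(r) = ∑ r ^ j ⊗ x j`, `r` in `E`, for every field extension `E / F`.

Proof. In `D[X]` (Mathlib `Polynomial D`, noncommutative coefficients; `X` is central) let
`Z = ∑ j, C (x j) * X ^ j` and `G = Z ^ 5 + Q3' * Z ^ 3 + Q1' * Z + Q0'`, `Qi' = Qi.map (algebraMap F D)`. For `t` in `F` let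
`ε_t : D[X] →+* D` be `Polynomial.eval₂RingHom' (RingHom.id D) (algebraMap F D t) _` (commuting:
`Algebra.commutes`). `ε_t G = 0` for all `t`. Write `G = ∑ c_m X ^ m`, so `∑ t ^ m • c_m = 0` for all `t : F`; for a linear
functional `l : D →ₗ[F] F` the polynomial `∑ l (c_m) X ^ m` in `F[X]` vanishes on the infinite field `F`, so it is zero
and `l (c_m) = 0`; all `c_m = 0` (a vector killed by all functionals is zero: `Module.forall_dual_apply_eq_zero_iff`), `G = 0`.
Now apply `D[X] →+* E ⊗ D`, `eval₂RingHom'` of `Algebra.TensorProduct.includeRight` at `r ⊗ 1` (commutes with `1 ⊗ d`).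
`Q.map` goes to `∑ q_m r ^ m ⊗ 1 = algebraMap E _ (aeval r Q)`.
-/

set_option autoImplicit false

universe u v w

open Polynomial TensorProduct

namespace Pool.Agent.H52.QC

theorem pol {F : Type u} {D : Type v} [Field F] [Infinite F] [Ring D] [Algebra F D] {n : ℕ} (x : Fin n → D)
    (Q3 Q1 Q0 : F[X])
    (h : ∀ t : F, (∑ j : Fin n, t ^ (j : ℕ) • x j) ^ 5 + Q3.eval t • (∑ j : Fin n, t ^ (j : ℕ) • x j) ^ 3
      + Q1.eval t • (∑ j : Fin n, t ^ (j : ℕ) • x j) + algebraMap F D (Q0.eval t) = 0)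
    (E : Type w) [Field E] [Algebra F E] (r : E) :
    (∑ j : Fin n, r ^ (j : ℕ) • ((1 : E) ⊗ₜ[F] x j)) ^ 5
      + aeval r Q3 • (∑ j : Fin n, r ^ (j : ℕ) • ((1 : E) ⊗ₜ[F] x j)) ^ 3
      + aeval r Q1 • (∑ j : Fin n, r ^ (j : ℕ) • ((1 : E) ⊗ₜ[F] x j))
      + algebraMap E (E ⊗[F] D) (aeval r Q0) = 0 := by
  classical
  set Z : D[X] := ∑ j : Fin n, C (x j) * X ^ (j : ℕ) with hZ
  set G : D[X] := Z ^ 5 + Q3.map (algebraMap F D) * Z ^ 3 + Q1.map (algebraMap F D) * Z +
    Q0.map (algebraMap F D) with hG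
  -- evaluation at scalars
  have hcomm : ∀ (t : F) (a : D), Commute (RingHom.id D a) (algebraMap F D t) :=
    fun t a => (Algebra.commutes t a).symm
  have hevZ : ∀ t : F, Polynomial.eval₂RingHom' (RingHom.id D) (algebraMap F D t) (hcomm t) Z =
      ∑ j : Fin n, t ^ (j : ℕ) • x j := by
    intro t
    rw [hZ, map_sum]
    refine Finset.sum_congr rfl fun j _ => ?_
    rw [map_mul, map_pow]
    have e1 : Polynomial.eval₂RingHom' (RingHom.id D) (algebraMap F D t) (hcomm t) (C (x j)) =
        x j := Polynomial.eval₂_C _ _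
    have e2 : Polynomial.eval₂RingHom' (RingHom.id D) (algebraMap F D t) (hcomm t) X =
        algebraMap F D t := Polynomial.eval₂_X _ _
    rw [e1, e2, ← map_pow, ← Algebra.commutes, ← Algebra.smul_def]
  have hevQ : ∀ (t : F) (Q : F[X]), Polynomial.eval₂RingHom' (RingHom.id D) (algebraMap F D t)
      (hcomm t) (Q.map (algebraMap F D)) = algebraMap F D (Q.eval t) := by
    intro t Q
    show Polynomial.eval₂ (RingHom.id D) (algebraMap F D t) (Q.map (algebraMap F D)) = _
    rw [Polynomial.eval₂_map, RingHom.id_comp, Polynomial.eval₂_at_apply]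
  have hevG : ∀ t : F, Polynomial.eval₂ (RingHom.id D) (algebraMap F D t) G = 0 := by
    intro t
    have h1 : Polynomial.eval₂RingHom' (RingHom.id D) (algebraMap F D t) (hcomm t) G = 0 := by
      rw [hG, map_add, map_add, map_add, map_mul, map_mul, map_pow, map_pow, hevZ, hevQ, hevQ,
        hevQ, ← Algebra.smul_def, ← Algebra.smul_def]
      exact h t
    exact h1
  have hG0 : G = 0 := by
    refine Polynomial.ext fun m => ?_
    rw [Polynomial.coeff_zero]
    refine (Module.forall_dual_apply_eq_zero_iff F (G.coeff m)).1 fun l => ?_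
    set P : F[X] := ∑ k ∈ G.support, C (l (G.coeff k)) * X ^ k with hP
    have hP0 : P = 0 := by
      refine Polynomial.funext fun t => ?_
      rw [hP, Polynomial.eval_finset_sum, Polynomial.eval_zero]
      have e1 := hevG t
      rw [Polynomial.eval₂_eq_sum, Polynomial.sum_def] at e1
      have e2 := congrArg l e1
      rw [map_sum, map_zero] at e2
      rw [← e2]
      refine Finset.sum_congr rfl fun k _ => ?_
      rw [Polynomial.eval_mul, Polynomial.eval_C, Polynomial.eval_pow, Polynomial.eval_X,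
        RingHom.id_apply, ← map_pow, ← Algebra.commutes, ← Algebra.smul_def, map_smul,
        smul_eq_mul, mul_comm]
    have e3 : P.coeff m = if m ∈ G.support then l (G.coeff m) else 0 := by
      rw [hP, Polynomial.finset_sum_coeff]
      simp only [Polynomial.coeff_C_mul, Polynomial.coeff_X_pow]
      simp
    rw [hP0, Polynomial.coeff_zero] at e3
    by_cases hm : m ∈ G.support
    · rw [if_pos hm] at e3
      exact e3.symm
    · rw [Polynomial.notMem_support_iff.1 hm, map_zero]
  -- evaluation in the tensor product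
  have hc2 : ∀ a : D, Commute ((Algebra.TensorProduct.includeRight : D →ₐ[F] E ⊗[F] D).toRingHom a)
      (algebraMap E (E ⊗[F] D) r) := fun a => (Algebra.commutes r _).symm
  have h2Z : Polynomial.eval₂RingHom' (Algebra.TensorProduct.includeRight :
      D →ₐ[F] E ⊗[F] D).toRingHom (algebraMap E (E ⊗[F] D) r) hc2 Z =
      ∑ j : Fin n, r ^ (j : ℕ) • ((1 : E) ⊗ₜ[F] x j) := by
    rw [hZ, map_sum]
    refine Finset.sum_congr rfl fun j _ => ?_
    rw [map_mul, map_pow]
    have e1 : Polynomial.eval₂RingHom' (Algebra.TensorProduct.includeRight :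
        D →ₐ[F] E ⊗[F] D).toRingHom (algebraMap E (E ⊗[F] D) r) hc2 (C (x j)) =
        (1 : E) ⊗ₜ[F] x j := Polynomial.eval₂_C _ _
    have e2 : Polynomial.eval₂RingHom' (Algebra.TensorProduct.includeRight :
        D →ₐ[F] E ⊗[F] D).toRingHom (algebraMap E (E ⊗[F] D) r) hc2 X =
        algebraMap E (E ⊗[F] D) r := Polynomial.eval₂_X _ _
    rw [e1, e2, ← map_pow, ← Algebra.commutes, ← Algebra.smul_def]
  have h2Q : ∀ Q : F[X], Polynomial.eval₂RingHom' (Algebra.TensorProduct.includeRight :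
      D →ₐ[F] E ⊗[F] D).toRingHom (algebraMap E (E ⊗[F] D) r) hc2 (Q.map (algebraMap F D)) =
      algebraMap E (E ⊗[F] D) (aeval r Q) := by
    intro Q
    show Polynomial.eval₂ (Algebra.TensorProduct.includeRight :
      D →ₐ[F] E ⊗[F] D).toRingHom (algebraMap E (E ⊗[F] D) r) (Q.map (algebraMap F D)) = _
    rw [Polynomial.eval₂_map]
    have e1 : (Algebra.TensorProduct.includeRight : D →ₐ[F] E ⊗[F] D).toRingHom.comp
        (algebraMap F D) = (algebraMap E (E ⊗[F] D)).comp (algebraMap F E) := by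
      rw [← IsScalarTower.algebraMap_eq F E (E ⊗[F] D)]
      exact (Algebra.TensorProduct.includeRight : D →ₐ[F] E ⊗[F] D).comp_algebraMap
    rw [e1, ← Polynomial.hom_eval₂]
    rfl
  have h2G := congrArg (Polynomial.eval₂RingHom' (Algebra.TensorProduct.includeRight :
      D →ₐ[F] E ⊗[F] D).toRingHom (algebraMap E (E ⊗[F] D) r) hc2) hG0
  rw [hG, map_add, map_add, map_add, map_mul, map_mul, map_pow, map_pow, h2Z, h2Q, h2Q,
    h2Q, map_zero, ← Algebra.smul_def, ← Algebra.smul_def] at h2G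
  exact h2G

end Pool.Agent.H52.QC
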