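import Pool.Agent.H52.QC.Cnt
import Pool.Agent.H52.QC.Ord
import Pool.Agent.H52.QC.Dbl
import Pool.Agent.H52.QC.Pol
import Pool.Agent.H52.QC.Ind
import Pool.Agent.H84.CY.StG

/-!
# H52 QC CRV: a De Moivre element over an extension of degree at most `2`

Step A of the proof (table proofs, id 329): the cubic curve, its characteristic coefficients, the root of the quadratic
polynomial.
-/

set_option autoImplicit false

universe u v w

open Polynomial TensorProduct

namespace Pool.Agent.H52.QC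

open Pool.Agent.H84.CY

/-- there is a nonzero curve of degree at most `n` whose value at `θ` is in the block -/
def Good {F : Type u} {D : Type v} {K : Type w} [Field F] [Ring D] [Algebra F D] [Field K] [Algebra F K]
    (θ : K) (Ψ : D →ₐ[F] Matrix (Fin 5) (Fin 5) K) (n : ℕ) : Prop :=
  ∃ x : Fin (n + 1) → D, x ≠ 0 ∧ Blk (∑ j : Fin (n + 1), θ ^ (j : ℕ) • Ψ (x j))

theorem blk_smul {K : Type w} [Field K] {M : Matrix (Fin 5) (Fin 5) K} {c : K} (hc : c ≠ 0)
    (h : Blk (c • M)) : Blk M := by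
  intro i j hij
  have h1 := h i j hij
  rw [Matrix.smul_apply, smul_eq_mul] at h1
  exact (mul_eq_zero.mp h1).resolve_left hc

section

variable {F : Type u} {D : Type v} {K : Type w} [Field F] [Ring D] [Algebra F D] [Field K]
  [Algebra F K]

theorem crv_last (θ : K) (Ψ : D →ₐ[F] Matrix (Fin 5) (Fin 5) K) (n : ℕ)
    (hmin : ∀ m < n, ¬ Good θ Ψ m) (x : Fin (n + 1) → D) (hx : x ≠ 0)
    (hB : Blk (∑ j : Fin (n + 1), θ ^ (j : ℕ) • Ψ (x j))) : x (Fin.last n) ≠ 0 := by
  intro h0
  cases n with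
  | zero =>
    apply hx
    funext i
    have hi : i = Fin.last 0 := Fin.ext (by
      have h1 := i.isLt
      have h2 : (Fin.last 0).val = 0 := rfl
      omega)
    rw [hi, h0]
    rfl
  | succ m =>
    apply hmin m (Nat.lt_succ_self m)
    refine ⟨fun j => x j.castSucc, ?_, ?_⟩
    · intro h1
      apply hx
      funext i
      refine Fin.lastCases ?_ (fun j => ?_) i
      · rw [h0]
        rfl
      · exact congrFun h1 j
    · rw [Fin.sum_univ_castSucc, h0, map_zero, smul_zero, add_zero] at hB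
      exact hB

theorem crv_tr {n : ℕ} [Infinite K] (T : Fin n → K) (h : ∀ t : K, ∑ j : Fin n, t ^ (j : ℕ) * T j = 0)
    (j : Fin n) : T j = 0 := by
  have h1 : (∑ j : Fin n, C (T j) * X ^ (j : ℕ) : K[X]) = 0 := by
    apply Polynomial.funext
    intro t
    rw [eval_finsetSum, eval_zero, ← h t]
    apply Finset.sum_congr rfl
    intro i _
    rw [eval_mul, eval_C, eval_pow, eval_X, mul_comm]
  have h2 := congrArg (fun p : K[X] => p.coeff (j : ℕ)) h1
  simp only [finsetSum_coeff, coeff_C_mul_X_pow, coeff_zero] at h2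
  rw [Finset.sum_eq_single j] at h2
  · simpa using h2
  · intro b _ hb
    rw [if_neg]
    intro h3
    exact hb (Fin.ext h3.symm)
  · intro h3
    exact absurd (Finset.mem_univ j) h3

theorem crv_z (Ψ : D →ₐ[F] Matrix (Fin 5) (Fin 5) K) {n : ℕ} (x : Fin n → D) (t : F) :
    Ψ (∑ j : Fin n, t ^ (j : ℕ) • x j) = ∑ j : Fin n, (algebraMap F K t) ^ (j : ℕ) • Ψ (x j) := by
  rw [map_sum]
  apply Finset.sum_congr rfl
  intro j _
  rw [map_smul, ← map_pow, algebraMap_smul]

/-- the De Moivre equation from the coefficients of the characteristic polynomial -/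
theorem crv_dm (h5 : (5 : F) ≠ 0) {x : D} {q : F[X]} (hqm : q.Monic) (hqd : q.natDegree = 5)
    (hqx : aeval x q = 0) (h4 : q.coeff 4 = 0) (h2 : q.coeff 2 = 0)
    (h1 : 5 * q.coeff 1 = (q.coeff 3) ^ 2) : ∃ d s : F, DM x d s := by
  have h55 : q.coeff 5 = 1 := by
    have := hqm.coeff_natDegree
    rwa [hqd] at this
  rw [aeval_eq_sum_range' (n := 6) (by omega)] at hqx
  simp only [Finset.sum_range_succ, Finset.range_zero, Finset.sum_empty, pow_zero, pow_one, h2, h4,
    h55, zero_smul, one_smul, zero_add, add_zero] at hqx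
  refine ⟨-q.coeff 3 / 5, -q.coeff 0, ?_⟩
  unfold DM
  have e1 : 5 * (-q.coeff 3 / 5) = - q.coeff 3 := by field_simp
  have e2 : 5 * (-q.coeff 3 / 5) ^ 2 = q.coeff 1 := by
    field_simp
    rw [← h1]
  rw [e1, e2, map_neg, neg_smul, Algebra.algebraMap_eq_smul_one, ← sub_eq_zero, ← hqx]
  abel

end

theorem crv {F : Type u} {D : Type v} [Field F] [DivisionRing D] [Algebra F D]
    [Algebra.IsCentral F D] [FiniteDimensional F D] (h : Module.finrank F D = 5 ^ 2) (h50 : (5 : F) ≠ 0) :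
    (∃ (x : D) (d s : F), x ∉ Set.range (algebraMap F D) ∧ DM x d s) ∨
      ∃ a b : F, (∀ t : F, t ^ 2 ≠ a * t + b) ∧
        ∀ (E : Type u) [Field E] [Algebra F E] (r : E),
          r ^ 2 = algebraMap F E a * r + algebraMap F E b →
          ∃ (y : E ⊗[F] D) (d s : E), y ∉ Set.range (algebraMap E (E ⊗[F] D)) ∧ DM y d s := by
  classical
  have : Infinite F := sta_infinite h
  obtain ⟨K, _, _, _, θ, Ψ, hK, hθ, hΨ⟩ := spl (F := F) (D := D) (p := 5) (by norm_num) h
  have : Infinite K := Infinite.of_injective _ (algebraMap F K).injective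
  have h5 : (5 : K) ≠ 0 := by
    intro h0
    apply h50
    apply (algebraMap F K).injective
    rw [map_zero, map_ofNat]
    exact h0
  have hinj := (algebraMap F K).injective
  -- the minimal degree
  have hex : ∃ n, Good θ Ψ n := ⟨3, cnt (by rw [h]; norm_num) hK θ Ψ.toLinearMap⟩
  obtain ⟨n, hn3, hG, hmin⟩ : ∃ n ≤ 3, Good θ Ψ n ∧ ∀ m < n, ¬ Good θ Ψ m := by
    refine ⟨Nat.find hex, Nat.find_min' hex ?_, Nat.find_spec hex, fun m hm => Nat.find_min hex hm⟩
    exact cnt (by rw [h]; norm_num) hK θ Ψ.toLinearMap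
  obtain ⟨x, hx0, hB⟩ := hG
  have hlast := crv_last θ Ψ n hmin x hx0 hB
  -- the coefficients of the characteristic polynomial
  have hP : ∀ i : ℕ, i ≤ 4 → ∃ (P : K[X]) (Q : F[X]), P = Q.map (algebraMap F K) ∧
      P.natDegree ≤ n * (5 - i) ∧
      (∀ t : K, P.eval t = (∑ j : Fin (n + 1), t ^ (j : ℕ) • Ψ (x j)).charpoly.coeff i) ∧
      P.coeff (n * (5 - i)) = (Ψ (x (Fin.last n))).charpoly.coeff i ∧ P.eval θ = 0 ∧
      (i ≤ 2 → P.derivative.eval θ = 0) ∧
      (∀ t : F, P.eval (algebraMap F K t) ∈ Set.range (algebraMap F K)) ∧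
      (∀ t : F, algebraMap F K (Q.eval t) =
        (Ψ (∑ j : Fin (n + 1), t ^ (j : ℕ) • x j)).charpoly.coeff i) := by
    intro i hi
    obtain ⟨P, h1, h2, h3⟩ := deg_family (d := n) (fun j => Ψ (x j)) i (by omega)
    have hr : ∀ t : F, P.eval (algebraMap F K t) ∈ Set.range (algebraMap F K) := by
      intro t
      rw [h2, ← crv_z]
      obtain ⟨q, _, _, _, hq⟩ := hΨ (∑ j : Fin (n + 1), t ^ (j : ℕ) • x j)
      rw [hq, coeff_map]
      exact ⟨_, rfl⟩
    obtain ⟨Q, hQ⟩ := rat_poly P hr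
    obtain ⟨h4, h5'⟩ := ord (fun j => Ψ (x j)) θ hB i hi P h2
    refine ⟨P, Q, hQ, h1, h2, h3, h4, h5', hr, fun t => ?_⟩
    rw [crv_z, ← h2, hQ, eval_map_algebraMap, aeval_algebraMap_apply, coe_aeval_eq_eval]
  obtain ⟨P4, Q4, hQ4, d4, e4, c4, z4, -, r4, v4⟩ := hP 4 (by norm_num)
  obtain ⟨P3, Q3, hQ3, d3, e3, c3, z3, -, r3, v3⟩ := hP 3 (by norm_num)
  obtain ⟨P2, Q2, hQ2, d2, e2, c2, z2, w2, r2, v2⟩ := hP 2 (by norm_num)
  obtain ⟨P1, Q1, hQ1, d1, e1, c1, z1, w1, r1, v1⟩ := hP 1 (by norm_num)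
  obtain ⟨P0, Q0, hQ0, -, -, -, -, -, -, v0⟩ := hP 0 (by norm_num)
  have hfm : (minpoly F θ).Monic := minpoly.monic (Algebra.IsIntegral.isIntegral θ)
  have hf10 : ((minpoly F θ) ^ 2).natDegree = 10 := by
    rw [natDegree_pow, hθ]
  have hP4 : P4 = 0 := rat_zero θ 5 hθ P4 r4 z4 (by omega)
  have hP2 : P2 = 0 := by
    obtain ⟨Q, hQ⟩ := dbl θ hθ h50 P2 r2 z2 (w2 le_rfl)
    by_cases hQ0 : Q = 0
    · rw [hQ, hQ0, mul_zero, Polynomial.map_zero]
    · exfalso
      have h6 : P2.natDegree = 10 + Q.natDegree := by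
        rw [hQ, natDegree_map, (hfm.pow 2).natDegree_mul' hQ0, hf10]
      omega
  have hQ4' : Q4 = 0 := (Polynomial.map_eq_zero (algebraMap F K)).mp (by rw [← hQ4, hP4])
  have hQ2' : Q2 = 0 := (Polynomial.map_eq_zero (algebraMap F K)).mp (by rw [← hQ2, hP2])
  -- traces
  have htr : ∀ j, (Ψ (x j)).trace = 0 := by
    refine crv_tr _ (fun t => ?_)
    have h6 := e4 t
    rw [hP4, eval_zero] at h6
    have h7 := Matrix.trace_eq_neg_charpoly_coeff
      (∑ j : Fin (n + 1), t ^ (j : ℕ) • Ψ (x j))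
    simp only [Fintype.card_fin] at h7
    rw [← h6, neg_zero, Matrix.trace_sum] at h7
    rw [← h7]
    apply Finset.sum_congr rfl
    intro j _
    rw [Matrix.trace_smul, smul_eq_mul]
  -- the polynomial `Φ`
  set Φ : K[X] := C 5 * P1 - P3 ^ 2 with hΦ
  have hΦr : ∀ t : F, Φ.eval (algebraMap F K t) ∈ Set.range (algebraMap F K) := by
    intro t
    obtain ⟨u1, hu1⟩ := r1 t
    obtain ⟨u3, hu3⟩ := r3 t
    refine ⟨5 * u1 - u3 ^ 2, ?_⟩
    rw [hΦ, eval_sub, eval_mul, eval_pow, eval_C, ← hu1, ← hu3, map_sub, map_mul, map_pow, map_ofNat]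
  have hΦ0 : Φ.eval θ = 0 := by
    rw [hΦ, eval_sub, eval_mul, eval_pow, z1, z3]
    ring
  have hΦ1 : Φ.derivative.eval θ = 0 := by
    rw [hΦ, derivative_sub, derivative_C_mul, derivative_pow, eval_sub, eval_mul, eval_mul, eval_mul,
      w1 (by norm_num), eval_pow, z3]
    ring
  obtain ⟨ψ, hψ⟩ := dbl θ hθ h50 Φ hΦr hΦ0 hΦ1
  have hΦc : Φ.coeff (n * 4) = 5 * (Ψ (x (Fin.last n))).charpoly.coeff 1
      - ((Ψ (x (Fin.last n))).charpoly.coeff 3) ^ 2 := by
    have h6 : (P3 ^ 2).coeff (n * 4) = (P3.coeff (n * 2)) ^ 2 := by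
      have h7 := coeff_pow_of_natDegree_le (p := P3) (n := n * 2) (m := 2) d3
      rw [← h7]
      congr 1
      omega
    rw [hΦ, coeff_sub, coeff_C_mul, h6, c3]
    rw [show n * 4 = n * (5 - 1) from rfl, c1]
  have hΦd : Φ.natDegree ≤ n * 4 := by
    rw [hΦ]
    refine (natDegree_sub_le _ _).trans (max_le ?_ ?_)
    · exact (natDegree_C_mul_le _ _).trans d1
    · refine natDegree_pow_le.trans ?_
      omega
  by_cases hc : Φ.coeff (n * 4) = 0
  · left
    obtain ⟨q, hqm, hqd, hqx, hq⟩ := hΨ (x (Fin.last n))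
    have g4 : q.coeff 4 = 0 := by
      apply hinj
      rw [map_zero, ← coeff_map, ← hq, ← c4, hP4, coeff_zero]
    have g2 : q.coeff 2 = 0 := by
      apply hinj
      rw [map_zero, ← coeff_map, ← hq, ← c2, hP2, coeff_zero]
    have g1 : 5 * q.coeff 1 = (q.coeff 3) ^ 2 := by
      apply hinj
      rw [map_mul, map_pow, map_ofNat, ← coeff_map, ← coeff_map, ← hq, ← sub_eq_zero, ← hΦc, hc]
    obtain ⟨d, s, hds⟩ := crv_dm h50 hqm hqd hqx g4 g2 g1
    exact ⟨_, d, s, fun hx => hlast (stg_scal h5 Ψ _ hx (htr _)), hds⟩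
  have hψ0 : ψ ≠ 0 := by
    intro h6
    apply hc
    rw [hψ, h6, mul_zero, Polynomial.map_zero, coeff_zero]
  have hΦd' : Φ.natDegree = 10 + ψ.natDegree := by
    rw [hψ, natDegree_map, (hfm.pow 2).natDegree_mul' hψ0, hf10]
  obtain rfl : n = 3 := by omega
  have hψ2 : ψ.natDegree = 2 := by
    have h6 := le_natDegree_of_ne_zero hc
    omega
  have hα : ψ.coeff 2 ≠ 0 := by
    rw [← hψ2]
    exact leadingCoeff_ne_zero.mpr hψ0
  have hΦF : C 5 * Q1 - Q3 ^ 2 = (minpoly F θ) ^ 2 * ψ := by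
    apply Polynomial.map_injective (algebraMap F K) hinj
    rw [← hψ, hΦ, hQ1, hQ3, Polynomial.map_sub, Polynomial.map_mul, Polynomial.map_pow, map_C,
      map_ofNat]
  obtain ⟨a, b, hψe⟩ : ∃ a b : F, ∀ (E : Type u) [Field E] [Algebra F E] (r : E),
      r ^ 2 = algebraMap F E a * r + algebraMap F E b → aeval r ψ = 0 := by
    refine ⟨-ψ.coeff 1 / ψ.coeff 2, -ψ.coeff 0 / ψ.coeff 2, fun E _ _ r hr => ?_⟩
    have hα' : algebraMap F E (ψ.coeff 2) ≠ 0 := by
      rw [Ne, map_eq_zero]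
      exact hα
    rw [aeval_eq_sum_range' (n := 3) (by omega)]
    simp only [Finset.sum_range_succ, Finset.range_zero, Finset.sum_empty, pow_zero, pow_one,
      zero_add, Algebra.smul_def, mul_one]
    rw [map_div₀, map_div₀, map_neg, map_neg] at hr
    rw [hr]
    field_simp
    ring
  -- the identity on `F`
  have hcf : ∀ t : F, ∃ q : F[X], q.Monic ∧ q.natDegree = 5 ∧
      aeval (∑ j : Fin (3 + 1), t ^ (j : ℕ) • x j) q = 0 ∧ q.coeff 4 = 0 ∧ q.coeff 3 = Q3.eval t ∧
      q.coeff 2 = 0 ∧ q.coeff 1 = Q1.eval t ∧ q.coeff 0 = Q0.eval t := by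
    intro t
    obtain ⟨q, hqm, hqd, hqx, hq⟩ := hΨ (∑ j : Fin (3 + 1), t ^ (j : ℕ) • x j)
    refine ⟨q, hqm, hqd, hqx, ?_, ?_, ?_, ?_, ?_⟩ <;> apply hinj
    · rw [← coeff_map, ← hq, ← v4, hQ4', eval_zero]
    · rw [← coeff_map, ← hq, ← v3]
    · rw [← coeff_map, ← hq, ← v2, hQ2', eval_zero]
    · rw [← coeff_map, ← hq, ← v1]
    · rw [← coeff_map, ← hq, ← v0]
  by_cases hroot : ∃ t : F, t ^ 2 = a * t + b
  · left
    obtain ⟨t, ht⟩ := hroot
    obtain ⟨q, hqm, hqd, hqx, g4, g3, g2, g1, -⟩ := hcf t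
    have g1' : 5 * q.coeff 1 = (q.coeff 3) ^ 2 := by
      have h6 := congrArg (fun p : F[X] => p.eval t) hΦF
      have h7 := hψe F t (by simpa using ht)
      rw [coe_aeval_eq_eval] at h7
      simp only [eval_sub, eval_mul, eval_C, eval_pow, h7, mul_zero] at h6
      rw [g1, g3]
      exact sub_eq_zero.mp h6
    obtain ⟨d, s, hds⟩ := crv_dm h50 hqm hqd hqx g4 g2 g1'
    refine ⟨_, d, s, fun hx => ?_, hds⟩
    have hz0 : ∑ j : Fin (3 + 1), t ^ (j : ℕ) • x j = 0 := by
      refine stg_scal h5 Ψ _ hx ?_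
      rw [crv_z, Matrix.trace_sum]
      apply Finset.sum_eq_zero
      intro j _
      rw [Matrix.trace_smul, htr, smul_zero]
    apply hmin 2 (by norm_num)
    refine ⟨![x 1 + t • x 2 + t ^ 2 • x 3, x 2 + t • x 3, x 3], ?_, ?_⟩
    · intro h6
      exact hlast (congrFun h6 2)
    · refine blk_smul (sta_ne θ hθ t) ?_
      have h6 : (θ - algebraMap F K t) • ∑ j : Fin (2 + 1), θ ^ (j : ℕ) •
          Ψ ((![x 1 + t • x 2 + t ^ 2 • x 3, x 2 + t • x 3, x 3] : Fin (2 + 1) → D) j)
          = ∑ j : Fin (3 + 1), θ ^ (j : ℕ) • Ψ (x j) := by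
        have h7 := congrArg Ψ hz0
        rw [crv_z, map_zero] at h7
        rw [Fin.sum_univ_four] at h7 ⊢
        rw [Fin.sum_univ_three]
        have e1 : ∀ M : Matrix (Fin 5) (Fin 5) K, t • M = algebraMap F K t • M := fun M =>
          (algebraMap_smul K t M).symm
        have e2 : ∀ M : Matrix (Fin 5) (Fin 5) K, t ^ 2 • M = (algebraMap F K t) ^ 2 • M := fun M => by
          rw [← map_pow, algebraMap_smul]
        simp only [Matrix.cons_val_zero, Matrix.cons_val_one, Matrix.cons_val, map_add, map_smul, e1,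
          e2]
        have h8 : Ψ (x 0) = -(algebraMap F K t • Ψ (x 1) + (algebraMap F K t) ^ 2 • Ψ (x 2)
            + (algebraMap F K t) ^ 3 • Ψ (x 3)) := by
          rw [eq_neg_iff_add_eq_zero, ← h7]
          change _ = (algebraMap F K t) ^ 0 • Ψ (x 0) + (algebraMap F K t) ^ 1 • Ψ (x 1) +
            (algebraMap F K t) ^ 2 • Ψ (x 2) + (algebraMap F K t) ^ 3 • Ψ (x 3)
          module
        change (θ - (algebraMap F K) t) • (θ ^ 0 • _ + θ ^ 1 • _ + θ ^ 2 • _) =
          θ ^ 0 • _ + θ ^ 1 • _ + θ ^ 2 • _ + θ ^ 3 • _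
        rw [h8]
        module
      rw [h6]
      exact hB
  · right
    push Not at hroot
    refine ⟨a, b, hroot, fun E _ _ r hr => ?_⟩
    have hid := pol x Q3 Q1 Q0 (fun t => by
      obtain ⟨q, hqm, hqd, hqx, g4, g3, g2, g1, g0⟩ := hcf t
      have h55 : q.coeff 5 = 1 := by
        have := hqm.coeff_natDegree
        rwa [hqd] at this
      rw [aeval_eq_sum_range' (n := 6) (by omega)] at hqx
      simp only [Finset.sum_range_succ, Finset.range_zero, Finset.sum_empty, pow_zero, pow_one, g4,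
        g2, g3, g1, g0, h55, zero_smul, one_smul, zero_add, add_zero] at hqx
      rw [← hqx, Algebra.algebraMap_eq_smul_one]
      abel) E r
    have hrel : 5 * aeval r Q1 = (aeval r Q3) ^ 2 := by
      have h6 := congrArg (fun p : F[X] => aeval r p) hΦF
      simp only [map_sub, map_mul, map_pow, hψe E r hr, mul_zero, map_ofNat] at h6
      exact sub_eq_zero.mp h6
    have h5E : (5 : E) ≠ 0 := by
      intro h0
      apply h50
      apply (algebraMap F E).injective
      rw [map_zero, map_ofNat]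
      exact h0
    refine ⟨∑ j : Fin (3 + 1), r ^ (j : ℕ) • ((1 : E) ⊗ₜ[F] x j), -(aeval r Q3) / 5, -(aeval r Q0),
      ?_, ?_⟩
    · rintro ⟨e, he⟩
      have hrF : r ∉ Set.range (algebraMap F E) := by
        rintro ⟨t, rfl⟩
        apply hroot t
        apply (algebraMap F E).injective
        rw [map_pow, hr, map_add, map_mul]
      have hr3 : r ^ 3 = (algebraMap F E a ^ 2 + algebraMap F E b) * r
          + algebraMap F E a * algebraMap F E b := by
        rw [pow_succ, hr, add_mul, mul_assoc, ← pow_two, hr]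
        ring
      have h6 : (1 : E) ⊗ₜ[F] (x 0 + b • x 2 + (a * b) • x 3)
          + r • ((1 : E) ⊗ₜ[F] (x 1 + a • x 2 + (a ^ 2 + b) • x 3)) = algebraMap E (E ⊗[F] D) e := by
        rw [he, Fin.sum_univ_four]
        have e1 : ∀ (c : F) (m : D), (1 : E) ⊗ₜ[F] (c • m) = algebraMap F E c • ((1 : E) ⊗ₜ[F] m) :=
          fun c m => by
            rw [algebraMap_smul, TensorProduct.tmul_smul]
        simp only [TensorProduct.tmul_add, e1, map_mul, map_add, map_pow]
        change _ = r ^ 0 • _ + r ^ 1 • _ + r ^ 2 • _ + r ^ 3 • _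
        rw [hr3, hr]
        module
      obtain ⟨h7, h8⟩ := ind r hrF _ _ e h6
      have h9 : x 0 + b • x 2 + (a * b) • x 3 = 0 := by
        refine stg_scal h5 Ψ _ h7 ?_
        have t0 := htr 0
        have t2 := htr 2
        have t3 := htr 3
        simp only [map_add, map_smul, Matrix.trace_add, Matrix.trace_smul, t0, t2, t3, smul_zero,
          add_zero]
      have h10 : x 1 + a • x 2 + (a ^ 2 + b) • x 3 = 0 := by
        refine stg_scal h5 Ψ _ h8 ?_
        have t1 := htr 1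
        have t2 := htr 2
        have t3 := htr 3
        simp only [map_add, map_smul, Matrix.trace_add, Matrix.trace_smul, t1, t2, t3, smul_zero,
          add_zero]
      apply hmin 1 (by norm_num)
      refine ⟨![x 2 + a • x 3, x 3], ?_, ?_⟩
      · intro h11
        exact hlast (congrFun h11 1)
      · have hθ2 : θ ^ 2 - algebraMap F K a * θ - algebraMap F K b ≠ 0 := by
          intro h11
          have h12 : aeval θ (X ^ 2 - C a * X - C b : F[X]) = 0 := by
            rw [map_sub, map_sub, map_mul, map_pow, aeval_X, aeval_C, aeval_C, h11]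
          have h13 := natDegree_le_of_dvd (minpoly.dvd F θ h12) (by
            intro h14
            have h15 := congrArg (fun p : F[X] => p.coeff 2) h14
            simp at h15)
          rw [hθ] at h13
          have h14 : (X ^ 2 - C a * X - C b : F[X]).natDegree ≤ 2 := by
            compute_degree
          omega
        refine blk_smul hθ2 ?_
        have h11 : (θ ^ 2 - algebraMap F K a * θ - algebraMap F K b) • ∑ j : Fin (1 + 1),
            θ ^ (j : ℕ) • Ψ ((![x 2 + a • x 3, x 3] : Fin (1 + 1) → D) j)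
            = ∑ j : Fin (3 + 1), θ ^ (j : ℕ) • Ψ (x j) := by
          rw [Fin.sum_univ_four, Fin.sum_univ_two]
          have e1 : ∀ (c : F) (M : Matrix (Fin 5) (Fin 5) K), c • M = algebraMap F K c • M :=
            fun c M => (algebraMap_smul K c M).symm
          have h12 := congrArg Ψ h9
          have h13 := congrArg Ψ h10
          simp only [map_add, map_smul, map_zero, e1, map_mul, map_pow] at h12 h13
          simp only [Matrix.cons_val_zero, Matrix.cons_val_one, map_add, map_smul, e1]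
          have h14 : Ψ (x 0) = -(algebraMap F K b • Ψ (x 2)
              + (algebraMap F K a * algebraMap F K b) • Ψ (x 3)) := by
            rw [eq_neg_iff_add_eq_zero, ← h12]
            abel
          have h15 : Ψ (x 1) = -(algebraMap F K a • Ψ (x 2)
              + (algebraMap F K a ^ 2 + algebraMap F K b) • Ψ (x 3)) := by
            rw [eq_neg_iff_add_eq_zero, ← h13]
            abel
          change (θ ^ 2 - algebraMap F K a * θ - algebraMap F K b) • (θ ^ 0 • _ + θ ^ 1 • _) =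
            θ ^ 0 • _ + θ ^ 1 • _ + θ ^ 2 • _ + θ ^ 3 • _
          rw [h14, h15]
          module
        rw [h11]
        exact hB
    · unfold DM
      have e1 : 5 * (-(aeval r Q3) / 5) = - aeval r Q3 := by field_simp
      have e2 : 5 * (-(aeval r Q3) / 5) ^ 2 = aeval r Q1 := by
        field_simp
        rw [← hrel]
      rw [e1, e2, map_neg, neg_smul, ← sub_eq_zero, ← hid]
      abel

end Pool.Agent.H52.QC
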