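import Mathlib

/-!
# H52 QC: definitions

MP_83bf11_al, QuadraticCyclic (complete proof: table proofs, id 329). `F` is a field, `D` a division ring with centre
`F` and `dim_F D = 25`.
-/

set_option autoImplicit false

universe u v w

namespace Pool.Agent.H52.QC

/-- Matrices supported in the upper right block of size `3 x 2`. -/
def Blk {K : Type w} [Zero K] (M : Matrix (Fin 5) (Fin 5) K) : Prop :=
  ∀ i j : Fin 5, ¬ (i.val < 3 ∧ 3 ≤ j.val) → M i j = 0

/-- De Moivre equation with parameters `d`, `s`. -/
def DM {E : Type u} {B : Type v} [Field E] [Ring B] [Algebra E B] (x : B) (d s : E) : Prop :=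
  x ^ 5 - (5 * d) • x ^ 3 + (5 * d ^ 2) • x = algebraMap E B s

/-- Some cyclic Galois extension of `E` of degree `5` embeds into the `E`-algebra `B`. -/
def Cyc5 (E : Type u) (B : Type v) [Field E] [Ring B] [Algebra E B] : Prop :=
  ∃ (L : Type u) (_ : Field L) (_ : Algebra E L),
    IsGalois E L ∧ IsCyclic (L ≃ₐ[E] L) ∧ Module.finrank E L = 5 ∧ Nonempty (L →ₐ[E] B)

end Pool.Agent.H52.QC
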