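import Pool.Agent.H52.QC.Def

/-!
# H52 QC DMU: the fifth root in a De Moivre equation

`R` a division ring, finite dimensional over the field `M` in its centre (an `M`-algebra), `x` in `R`,
`x ^ 5 - 5 d x ^ 3 + 5 d ^ 2 x = s`, `ω ^ 2 - s ω + d ^ 5 = 0` in `M`, `E4 = x ^ 4 - 3 d x ^ 2 + d ^ 2 ≠ 0`. Then
`u = (ω + d E3) E4⁻¹`, `E3 = x ^ 3 - 2 d x`, commutes with `x`, `u (x - u) = d`, `u ^ 5 = ω`; and every ring endomorphism
`g` of `R` which fixes `x` and `d` and maps `ω` to `s - ω` maps `u` to `x - u`.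

Proof. Everything happens in commuting elements (`x`, scalars, `E4⁻¹`): `Commute`, or work in a commutative subring
(`Algebra.adjoin M {x}` closed under inverse; or prove the identities for `u * E4 = ω + d E3` and cancel `E4`).
Identities: (1) `x E4 - 2 d E3 = s` (the hypothesis); (2) `E4 ^ 2 - x E3 E4 + d E3 ^ 2 = d ^ 4` (identity of polynomials in
`x`, `d`). `u (x - u) = d` is `(ω + d E3) (x E4 - ω - d E3) = d E4 ^ 2`: the left side is
`(ω + d E3) (s + d E3 - ω) = ω (s - ω) + d E3 s + d ^ 2 E3 ^ 2 = d ^ 5 + d E3 (x E4 - 2 d E3) + d ^ 2 E3 ^ 2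
= d ^ 5 + d x E3 E4 - d ^ 2 E3 ^ 2 = d E4 ^ 2` by (2). With `u ^ 2 = x u - d`:
`u ^ 5 = u E4 - d E3 = ω` (`u ^ 3 = x u ^ 2 - d u` and so on). `g u`: `g E3 = E3`, `g E4 = E4`, so
`g u * E4 = s - ω + d E3 = x E4 - ω - d E3 = (x - u) E4`; cancel `E4`.
-/

set_option autoImplicit false

universe u v w

namespace Pool.Agent.H52.QC

/-- the computation in a commutative domain -/
theorem dmu_comm {S : Type v} [CommRing S] [IsDomain S] (x u d s ω : S)
    (hx : x ^ 5 - 5 * d * x ^ 3 + 5 * d ^ 2 * x = s) (hω : ω ^ 2 - s * ω + d ^ 5 = 0)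
    (hE : x ^ 4 - 3 * d * x ^ 2 + d ^ 2 ≠ 0)
    (hu : u * (x ^ 4 - 3 * d * x ^ 2 + d ^ 2) = ω + d * (x ^ 3 - 2 * d * x)) :
    u * (x - u) = d ∧ u ^ 5 = ω := by
  have h1 : (x ^ 4 - 3 * d * x ^ 2 + d ^ 2) ^ 2 * (u * (x - u) - d) = 0 := by
    linear_combination (x * (x ^ 4 - 3 * d * x ^ 2 + d ^ 2) - u * (x ^ 4 - 3 * d * x ^ 2 + d ^ 2)
      - (ω + d * (x ^ 3 - 2 * d * x))) * hu + ω * hx - hω
  have h2 : u * (x - u) - d = 0 := (mul_eq_zero.mp h1).resolve_left (pow_ne_zero 2 hE)
  have h3 : u * (x - u) = d := sub_eq_zero.mp h2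
  refine ⟨h3, ?_⟩
  have h4 : u ^ 2 = x * u - d := by linear_combination - h3
  have h5 : u ^ 5 = u * (x ^ 4 - 3 * d * x ^ 2 + d ^ 2) - d * (x ^ 3 - 2 * d * x) := by
    have h6 : u ^ 3 = (x ^ 2 - d) * u - d * x := by linear_combination (u + x) * h4
    have h7 : u ^ 4 = (x ^ 3 - 2 * d * x) * u - d * (x ^ 2 - d) := by
      linear_combination u * h6 + (x ^ 2 - d) * h4
    linear_combination u * h7 + (x ^ 3 - 2 * d * x) * h4
  rw [h5, hu]
  ring

theorem dmu {M : Type u} {R : Type v} [Field M] [DivisionRing R] [Algebra M R]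
    (x : R) (d s ω : M) (hx : DM x d s) (hω : ω ^ 2 - s * ω + d ^ 5 = 0)
    (hE : x ^ 4 - (3 * d) • x ^ 2 + algebraMap M R (d ^ 2) ≠ 0) :
    ∃ u : R, u * x = x * u ∧ u * (x - u) = algebraMap M R d ∧ u ^ 5 = algebraMap M R ω ∧
      ∀ g : R →+* R, g x = x → g (algebraMap M R d) = algebraMap M R d →
        g (algebraMap M R ω) = algebraMap M R (s - ω) → g u = x - u := by
  unfold DM at hx
  have s3 : ∀ z : R, (3 * d) • z = 3 * algebraMap M R d * z := fun z => by
    rw [Algebra.smul_def, map_mul, map_ofNat]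
  have s5 : ∀ z : R, (5 * d) • z = 5 * algebraMap M R d * z := fun z => by
    rw [Algebra.smul_def, map_mul, map_ofNat]
  have s52 : ∀ z : R, (5 * d ^ 2) • z = 5 * algebraMap M R d ^ 2 * z := fun z => by
    rw [Algebra.smul_def, map_mul, map_ofNat, map_pow]
  rw [s5, s52] at hx
  rw [s3, map_pow] at hE
  set D := algebraMap M R d with hD
  set A4 := x ^ 4 - 3 * D * x ^ 2 + D ^ 2 with hA4
  set A3 := x ^ 3 - 2 * D * x with hA3
  have cD : ∀ z : R, Commute D z := fun z => Algebra.commutes d z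
  have cω : ∀ z : R, Commute (algebraMap M R ω) z := fun z => Algebra.commutes ω z
  have c3 : ∀ z : R, Commute (3 : R) z := fun z => (Nat.cast_commute 3 z)
  have c2 : ∀ z : R, Commute (2 : R) z := fun z => (Nat.cast_commute 2 z)
  have cA4 : Commute x A4 := by
    rw [hA4]
    exact (((Commute.refl x).pow_right 4).sub_right
      (((c3 x).symm.mul_right (cD x).symm).mul_right ((Commute.refl x).pow_right 2))).add_right
      ((cD x).symm.pow_right 2)
  have cA3 : Commute x A3 := by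
    rw [hA3]
    exact ((Commute.refl x).pow_right 3).sub_right
      (((c2 x).symm.mul_right (cD x).symm).mul_right (Commute.refl x))
  set u : R := (algebraMap M R ω + D * A3) * A4⁻¹ with hu
  have hux : Commute u x := by
    rw [hu]
    exact ((cω x).add_left ((cD x).mul_left cA3.symm)).mul_left cA4.symm.inv_left₀
  have huA : u * A4 = algebraMap M R ω + D * A3 := by
    rw [hu, mul_assoc, inv_mul_cancel₀ hE, mul_one]
  -- the commutative subalgebra
  have hcomm : ∀ a ∈ ({x, u} : Set R), ∀ b ∈ ({x, u} : Set R), a * b = b * a := by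
    intro a ha b hb
    rcases ha with rfl | ha <;> rcases hb with rfl | hb
    · rfl
    · rw [Set.mem_singleton_iff.mp hb]; exact hux.symm
    · rw [Set.mem_singleton_iff.mp ha]; exact hux
    · rw [Set.mem_singleton_iff.mp ha, Set.mem_singleton_iff.mp hb]
  let S := Algebra.adjoin M ({x, u} : Set R)
  have iM : IsMulCommutative S := Algebra.isMulCommutative_adjoin M hcomm
  have hmc : ∀ a b : S, a * b = b * a := fun a b => iM.is_comm.comm a b
  let iS : CommRing S := { (S.toRing : Ring S) with mul_comm := hmc }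
  have iD : IsDomain S := Function.Injective.isDomain (S.val : S →+* R) Subtype.val_injective
  have hxS : x ∈ S := Algebra.subset_adjoin (Set.mem_insert _ _)
  have huS : u ∈ S := Algebra.subset_adjoin (Set.mem_insert_of_mem _ (Set.mem_singleton _))
  have hinj : ∀ a b : S, (a : R) = b → a = b := fun a b h => Subtype.ext h
  have key := dmu_comm (S := S) ⟨x, hxS⟩ ⟨u, huS⟩ (algebraMap M S d) (algebraMap M S s)
    (algebraMap M S ω) (hinj _ _ hx) (by
      rw [← map_pow, ← map_mul, ← map_sub, ← map_pow, ← map_add, hω, map_zero]) (fun h0 => hE (by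
      have := congrArg (fun z : S => (z : R)) h0
      exact this)) (hinj _ _ (by
      rw [hA3] at huA
      exact huA))
  obtain ⟨k1, k2⟩ := key
  have k1' : u * (x - u) = D := congrArg (fun z : S => (z : R)) k1
  have k2' : u ^ 5 = algebraMap M R ω := congrArg (fun z : S => (z : R)) k2
  refine ⟨u, hux, k1', k2', fun g hgx hgd hgω => ?_⟩
  have hg3 : g A3 = A3 := by
    rw [hA3, map_sub, map_mul, map_mul, map_pow, hgx, hgd, map_ofNat]
  have hg4 : g A4 = A4 := by
    rw [hA4, map_add, map_sub, map_mul, map_mul, map_pow, map_pow, map_pow, hgx, hgd, map_ofNat]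
  have h6 : g u * A4 = (x - u) * A4 := by
    rw [← hg4, ← map_mul, huA, map_add, map_mul, hgω, hgd, hg3, hg4, sub_mul, huA, map_sub, ← hx]
    have h7 : x * A4 = x ^ 5 - 3 * D * x ^ 3 + D ^ 2 * x := by
      have e1 : x * (3 * D * x ^ 2) = 3 * D * x ^ 3 := by
        rw [← mul_assoc, ((c3 x).symm.mul_right (cD x).symm).eq, mul_assoc, ← pow_succ']
      have e2 : x * D ^ 2 = D ^ 2 * x := ((cD x).symm.pow_right 2).eq
      rw [hA4, mul_add, mul_sub, ← pow_succ', e1, e2]
    have h8 : D * A3 = D * x ^ 3 - 2 * D ^ 2 * x := by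
      rw [hA3, mul_sub, pow_two, ← mul_assoc, ← mul_assoc, ← mul_assoc, (c2 D).eq]
    rw [h7, h8]
    noncomm_ring
  exact mul_right_cancel₀ hE h6

end Pool.Agent.H52.QC
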