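import Pool.Agent.H52.QC.Def

/-!
# H52 QC EGV: an element with `y u = ζ u y`

`R` a division ring, algebra over the field `M`, `ζ` a primitive fifth root of unity in `M`, `u` in `R` with `u ^ 5` in `M`
(so `u ^ 5` is central) which does not commute with some `y0`. Then there is `y ≠ 0` with `y u = ζ u y`.

Proof. `T z = u z u⁻¹`, `T ^ 5 = id`. For `i < 5` let `z_i = ∑_{j < 5} ζ ^ ((5 - i) j) T ^ j y0`
(that is `ζ ^ (- i j)`), so `T z_i = ζ ^ i z_i`, i.e. `u z_i = ζ ^ i z_i u`, and `∑_i z_i = 5 y0`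
(geometric sums of roots of unity, `IsPrimitiveRoot.geom_sum_eq_zero`). If `z_1 = ... = z_4 = 0` then `5 y0 = z_0` commutes with
`u`; `5 ≠ 0` in `M` (there is a primitive fifth root of unity, e.g. `IsPrimitiveRoot.neZero'` or: in
characteristic `5` `ζ ^ 5 = 1` gives `(ζ - 1) ^ 5 = 0`), contradiction. So `z = z_i ≠ 0` for some `i` in `{1, 2, 3, 4}`. Then
`u z ^ k = ζ ^ (i k) z ^ k u`; choose `k` with `i k = 4` mod `5` (`i = 1: 4, 2: 2, 3: 3, 4: 1`), `y = z ^ k ≠ 0`: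
`u y = ζ ^ 4 y u`, `y u = ζ u y`.
-/

set_option autoImplicit false

universe u v w

namespace Pool.Agent.H52.QC

theorem egv_pow {M : Type u} {R : Type v} [Field M] [Ring R] [Algebra M R] (u z : R) (c : M)
    (h : u * z = c • (z * u)) (k : ℕ) : u * z ^ k = c ^ k • (z ^ k * u) := by
  induction k with
  | zero => rw [pow_zero, pow_zero, mul_one, one_mul, one_smul]
  | succ k ih =>
    rw [pow_succ, ← mul_assoc, ih, smul_mul_assoc, mul_assoc, h, mul_smul_comm, smul_smul,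
      ← mul_assoc, ← pow_succ]

theorem egv {M : Type u} {R : Type v} [Field M] [DivisionRing R] [Algebra M R] {ζ : M}
    (hζ : IsPrimitiveRoot ζ 5) (u : R) (hu : u ^ 5 ∈ Set.range (algebraMap M R)) (y0 : R)
    (hy : u * y0 ≠ y0 * u) : ∃ y : R, y ≠ 0 ∧ y * u = ζ • (u * y) := by
  obtain ⟨ω, hω⟩ := hu
  have hu0 : u ≠ 0 := by
    rintro rfl
    rw [zero_mul, mul_zero] at hy
    exact hy rfl
  have h5 : (5 : M) ≠ 0 := by
    intro h0
    have h1 : (ζ - 1) ^ 5 = 0 := by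
      have h2 : (ζ - 1) ^ 5 = ζ ^ 5 - 1 - 5 * (ζ ^ 4 - 2 * ζ ^ 3 + 2 * ζ ^ 2 - ζ) := by ring
      rw [h2, h0, hζ.pow_eq_one]
      ring
    have h2 : ζ - 1 = 0 := pow_eq_zero_iff (by norm_num) |>.mp h1
    exact hζ.ne_one (by norm_num) (sub_eq_zero.mp h2)
  have hsum : 1 + ζ + ζ ^ 2 + ζ ^ 3 + ζ ^ 4 = 0 := by
    have h1 := hζ.geom_sum_eq_zero (by norm_num)
    rw [← h1]
    simp only [Finset.sum_range_succ, Finset.range_zero, Finset.sum_empty]
    ring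
  have hz5 := hζ.pow_eq_one
  -- conjugates of `y0`
  obtain ⟨a, ha⟩ : ∃ a : R, u * y0 = a * u := ⟨u * y0 * u⁻¹, by
    rw [mul_assoc (u * y0), inv_mul_cancel₀ hu0, mul_one]⟩
  obtain ⟨b, hb⟩ : ∃ b : R, u * a = b * u := ⟨u * a * u⁻¹, by
    rw [mul_assoc (u * a), inv_mul_cancel₀ hu0, mul_one]⟩
  obtain ⟨c, hc⟩ : ∃ c : R, u * b = c * u := ⟨u * b * u⁻¹, by
    rw [mul_assoc (u * b), inv_mul_cancel₀ hu0, mul_one]⟩
  obtain ⟨e, he⟩ : ∃ e : R, u * c = e * u := ⟨u * c * u⁻¹, by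
    rw [mul_assoc (u * c), inv_mul_cancel₀ hu0, mul_one]⟩
  have hlast : u * e = y0 * u := by
    have h1 : u ^ 5 * y0 = y0 * u ^ 5 := by
      rw [← hω]
      exact Algebra.commutes ω y0
    have h2 : u ^ 5 * y0 = u * e * u ^ 4 := by
      calc u ^ 5 * y0 = u * (u * (u * (u * (u * y0)))) := by
            simp only [pow_succ, pow_zero, one_mul, mul_assoc]
        _ = u * (u * (u * (u * a * u))) := by rw [ha, mul_assoc]
        _ = u * (u * (u * b * u * u)) := by rw [hb]; simp only [mul_assoc]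
        _ = u * (u * c * u * u * u) := by rw [hc]; simp only [mul_assoc]
        _ = u * e * u ^ 4 := by
            rw [he]
            simp only [pow_succ, pow_zero, one_mul, mul_assoc]
    have h3 : (u * e) * u ^ 4 = (y0 * u) * u ^ 4 := by
      rw [← h2, h1, mul_assoc y0, ← pow_succ']
    exact mul_right_cancel₀ (pow_ne_zero 4 hu0) h3
  -- the eigenvectors
  set z : M → R := fun w => y0 + w ^ 4 • a + w ^ 3 • b + w ^ 2 • c + w • e with hz
  have hzw : ∀ w : M, w ^ 5 = 1 → u * z w = w • (z w * u) := by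
    intro w hw
    have hw5 : w * w ^ 4 = 1 := by rw [← pow_succ']; exact hw
    simp only [hz, mul_add, add_mul, mul_smul_comm, smul_mul_assoc, smul_add, smul_smul, ha, hb, hc, he,
      hlast, hw5, one_smul]
    rw [show w * w ^ 3 = w ^ 4 by ring, show w * w ^ 2 = w ^ 3 by ring, show w * w = w ^ 2 by ring]
    abel
  -- a nonzero eigenvector gives the element
  have hfin : ∀ (i k : ℕ), ζ ^ (i * k) = ζ ^ 4 → z (ζ ^ i) ≠ 0 → ∃ y : R, y ≠ 0 ∧ y * u = ζ • (u * y) := by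
    intro i k hik hne
    refine ⟨z (ζ ^ i) ^ k, pow_ne_zero k hne, ?_⟩
    have h1 := hzw (ζ ^ i) (by rw [← pow_mul, mul_comm, pow_mul, hz5, one_pow])
    have h2 := egv_pow u (z (ζ ^ i)) (ζ ^ i) h1 k
    rw [h2, ← pow_mul, hik, smul_smul, ← pow_succ', hz5, one_smul]
  by_cases h1 : z (ζ ^ 1) = 0
  · by_cases h2 : z (ζ ^ 2) = 0
    · by_cases h3 : z (ζ ^ 3) = 0
      · by_cases h4 : z (ζ ^ 4) = 0
        · exfalso
          apply hy
          have h6 : z 1 = (5 : M) • y0 := by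
            have h7 : z 1 + z (ζ ^ 1) + z (ζ ^ 2) + z (ζ ^ 3) + z (ζ ^ 4) = (5 : M) • y0 := by
              simp only [hz]
              have e1 : (1 : M) ^ 4 + (ζ ^ 1) ^ 4 + (ζ ^ 2) ^ 4 + (ζ ^ 3) ^ 4 + (ζ ^ 4) ^ 4 = 0 := by
                linear_combination hsum + (ζ ^ 3 + ζ ^ 2 * (ζ ^ 5 + 1) + ζ * (ζ ^ 10 + ζ ^ 5 + 1)) * hz5
              have e2 : (1 : M) ^ 3 + (ζ ^ 1) ^ 3 + (ζ ^ 2) ^ 3 + (ζ ^ 3) ^ 3 + (ζ ^ 4) ^ 3 = 0 := by
                linear_combination hsum + (ζ + ζ ^ 4 + ζ ^ 2 * (ζ ^ 5 + 1)) * hz5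
              have e3 : (1 : M) ^ 2 + (ζ ^ 1) ^ 2 + (ζ ^ 2) ^ 2 + (ζ ^ 3) ^ 2 + (ζ ^ 4) ^ 2 = 0 := by
                linear_combination hsum + (ζ + ζ ^ 3) * hz5
              have e4 : (1 : M) + ζ ^ 1 + ζ ^ 2 + ζ ^ 3 + ζ ^ 4 = 0 := by
                linear_combination hsum
              calc _ = (5 : M) • y0 + ((1 : M) ^ 4 + (ζ ^ 1) ^ 4 + (ζ ^ 2) ^ 4 + (ζ ^ 3) ^ 4 + (ζ ^ 4) ^ 4) • a
                    + ((1 : M) ^ 3 + (ζ ^ 1) ^ 3 + (ζ ^ 2) ^ 3 + (ζ ^ 3) ^ 3 + (ζ ^ 4) ^ 3) • b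
                    + ((1 : M) ^ 2 + (ζ ^ 1) ^ 2 + (ζ ^ 2) ^ 2 + (ζ ^ 3) ^ 2 + (ζ ^ 4) ^ 2) • c
                    + ((1 : M) + ζ ^ 1 + ζ ^ 2 + ζ ^ 3 + ζ ^ 4) • e := by module
                _ = (5 : M) • y0 := by rw [e1, e2, e3, e4]; simp
            rw [← h7, h1, h2, h3, h4]
            simp
          have h7 := hzw 1 (one_pow 5)
          rw [h6, one_smul, mul_smul_comm, smul_mul_assoc] at h7
          exact smul_right_injective R h5 h7
        · exact hfin 4 1 (by norm_num) h4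
      · exact hfin 3 3 (by
          rw [show 3 * 3 = 5 + 4 from rfl, pow_add, hz5, one_mul]) h3
    · exact hfin 2 2 (by norm_num) h2
  · exact hfin 1 4 (by norm_num) h1

end Pool.Agent.H52.QC
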