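import Pool.Agent.H52.QC.Def
import Pool.Agent.H84.CY.Sub

/-!
# H52 QC NRM: elements inverted by the involution

`R` a division ring, central over `M` of dimension `25`, `ζ` a primitive fifth root of unity in `M`, `g` a ring
endomorphism of `R` with `g (g z) = z`, which fixes `ζ`, `d ≠ 0` in `M` fixed by `g`, `u`, `y ≠ 0` with `y u = ζ u y`, `u ^ 5` in
`M`, `g u * u = d`. Then there are `U`, `Y` in `R`, with `U * g U = 1`, `Y * g Y = 1`, `Y U = ζ ^ 4 U Y`, and `U ^ 5`, `Y ^ 5`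
in `M`.

Proof. `u ≠ 0` (`g u * u = d ≠ 0`), `u` and `y` do not commute (`ζ ≠ 1`, `u y ≠ 0`); so `u` is not in `M`.
(C) elements commuting with `u` commute with each other: if `z`, `z'` commute with `u` and `z z' ≠ z' z` then `u` is in `M`
by `Pool.Agent.H84.CY.sub_central` (with `a = z`, `b = z'`, `c = u`). Also an element commuting with `u` and `y` is in `M`
(`sub_central` with `a = u`, `b = y`).
`u * g u = d` too (`g u = d u⁻¹`). Let `a = g y * y`. From `y u = ζ u y`: `g y * g u = ζ g u g y`, and multiplying by `u` on both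
sides `u * g y = ζ (g y * u)`. So `a` commutes with `u`. Let `ρ z = y z y⁻¹`, `a_i = ρ^i a`; all `a_i` commute with `u`
(`ρ u = ζ u`). `ρ^5 = id` on elements commuting with `u` (`y ^ 5` commutes with `u` and `y`, so it is in `M`). `g a = y * g y = a_1`
(`g (g y * y) = y * g y = y a y⁻¹`). If `z` commutes with `u` then `g z` commutes with `u` (`g z` commutes with
`g u = d u⁻¹`) and `g (ρ z) = g y * g z * (g y)⁻¹` with `g y = a y⁻¹`, which is `ρ⁻¹ (g z)` by (C). So `g a_i = a_(1 - i)`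
(indices mod `5`): `g a_0 = a_1, g a_1 = a_0, g a_2 = a_4, g a_3 = a_3, g a_4 = a_2`. `A = a_0 a_1 a_2 a_3 a_4` is fixed by `ρ` and by
`g`, commutes with `u` and `y`: it is in `M`, nonzero. `y1 = a_2 a_3 y`:
`g y1 * y1 = a_4 a_3 (g y) a_2 a_3 y = a_4 a_3 a y⁻¹ a_2 a_3 y = a_4 a_3 a_0 a_1 a_2 = A`. `y1 u = ζ u y1`.
`U = u ^ 2 d⁻¹`: `g U = (d u⁻¹) ^ 2 d⁻¹ = U⁻¹`. `Y = y1 ^ 2 A⁻¹`: `g y1 = A y1⁻¹`, `g Y = A ^ 2 y1 ^ (-2) A⁻¹ = Y⁻¹`.
`y1 ^ 2 u ^ 2 = ζ ^ 4 u ^ 2 y1 ^ 2`. `y1 ^ 5` commutes with `u` and `y1`, so `Y ^ 5` is in `M`.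
(You may replace `g` fixing `A`: `g A = A` where `A` is the element of `R`; do not use that `g` maps `M` to `M`.)
-/

set_option autoImplicit false

universe u v w

namespace Pool.Agent.H52.QC

private theorem nrm_swap {M : Type u} {R : Type v} [Field M] [DivisionRing R] [Algebra M R]
    {x x' : R} {m : M} (hm : m ≠ 0) (h : x' * x = algebraMap M R m) :
    x * x' = algebraMap M R m := by
  have hm' : algebraMap M R m ≠ 0 := by
    rw [Ne, map_eq_zero_iff _ (algebraMap M R).injective]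
    exact hm
  have hx : x ≠ 0 := by
    rintro rfl
    rw [mul_zero] at h
    exact hm' h.symm
  have h1 : x' = algebraMap M R m * x⁻¹ := by
    rw [← h, mul_assoc, mul_inv_cancel₀ hx, mul_one]
  rw [h1, ← mul_assoc, ← Algebra.commutes m x, mul_assoc, mul_inv_cancel₀ hx, mul_one]

private theorem nrm_sq {M : Type u} {R : Type v} [Field M] [Ring R] [Algebra M R]
    {x x' : R} {m : M} (h : x * x' = algebraMap M R m) :
    x ^ 2 * x' ^ 2 = algebraMap M R (m ^ 2) := by
  calc x ^ 2 * x' ^ 2 = x * (x * x') * x' := by noncomm_ring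
    _ = x * algebraMap M R m * x' := by rw [h]
    _ = algebraMap M R m * (x * x') := by rw [← Algebra.commutes m x, mul_assoc]
    _ = algebraMap M R (m ^ 2) := by rw [h, ← map_mul, sq]

private theorem nrm_sc {M : Type u} {R : Type v} [Field M] [Ring R] [Algebra M R]
    {x y : R} {ζ : M} (h : y * x = ζ • (x * y)) :
    y ^ 2 * x ^ 2 = ζ ^ 4 • (x ^ 2 * y ^ 2) := by
  have h1 : y * x ^ 2 = ζ ^ 2 • (x ^ 2 * y) := by
    calc y * x ^ 2 = (y * x) * x := by noncomm_ring
      _ = (ζ • (x * y)) * x := by rw [h]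
      _ = ζ • (x * (y * x)) := by rw [smul_mul_assoc, mul_assoc]
      _ = ζ ^ 2 • (x ^ 2 * y) := by
          rw [h, mul_smul_comm, smul_smul, ← mul_assoc, sq, sq]
  calc y ^ 2 * x ^ 2 = y * (y * x ^ 2) := by noncomm_ring
    _ = y * (ζ ^ 2 • (x ^ 2 * y)) := by rw [h1]
    _ = ζ ^ 2 • ((y * x ^ 2) * y) := by rw [mul_smul_comm, ← mul_assoc]
    _ = ζ ^ 4 • (x ^ 2 * y ^ 2) := by
        rw [h1, smul_mul_assoc, smul_smul, mul_assoc, ← sq y, ← pow_add]

private theorem nrm_p5 {M : Type u} {R : Type v} [Field M] [Ring R] [Algebra M R]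
    {x y : R} {ζ : M} (hζ : ζ ^ 5 = 1) (h : y * x = ζ • (x * y)) :
    y ^ 5 * x = x * y ^ 5 := by
  have h1 : ∀ n : ℕ, y ^ n * x = ζ ^ n • (x * y ^ n) := by
    intro n
    induction n with
    | zero => simp
    | succ n ih =>
      rw [pow_succ', mul_assoc, ih, mul_smul_comm, ← mul_assoc, h, smul_mul_assoc, smul_smul,
        mul_assoc, ← pow_succ', ← pow_succ]
  rw [h1 5, hζ, one_smul]

theorem nrm {M : Type u} {R : Type v} [Field M] [DivisionRing R] [Algebra M R] [FiniteDimensional M R]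
    [Algebra.IsCentral M R] (h : Module.finrank M R = 5 ^ 2) {ζ : M} (hζ : IsPrimitiveRoot ζ 5)
    (g : R →+* R) (hgg : ∀ z, g (g z) = z) (hgζ : g (algebraMap M R ζ) = algebraMap M R ζ)
    (u y : R) (d : M) (hd : d ≠ 0) (hgd : g (algebraMap M R d) = algebraMap M R d)
    (hgu : g u * u = algebraMap M R d) (hu5 : u ^ 5 ∈ Set.range (algebraMap M R)) (hy : y ≠ 0)
    (hyu : y * u = ζ • (u * y)) :
    ∃ U Y : R, U * g U = 1 ∧ Y * g Y = 1 ∧ Y * U = ζ ^ 4 • (U * Y) ∧
      U ^ 5 ∈ Set.range (algebraMap M R) ∧ Y ^ 5 ∈ Set.range (algebraMap M R) := by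
  have hz5 : ζ ^ 5 = 1 := hζ.pow_eq_one
  have hz1 : ζ ≠ 1 := hζ.ne_one (by norm_num)
  have hz0 : ζ ≠ 0 := by
    rintro rfl
    norm_num at hz5
  have hp5 : Nat.Prime 5 := by norm_num
  have hdR : algebraMap M R d ≠ 0 := by
    rw [Ne, map_eq_zero_iff _ (algebraMap M R).injective]
    exact hd
  have hu : u ≠ 0 := by
    rintro rfl
    rw [mul_zero] at hgu
    exact hdR hgu.symm
  have hgu' : u * g u = algebraMap M R d := nrm_swap hd hgu
  -- elements which do not commute with `u`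
  have hnc : ∀ w : R, w ≠ 0 → w * u = ζ • (u * w) → u * w ≠ w * u := by
    intro w hw h1 h2
    rw [h1] at h2
    have h3 : (ζ - 1) • (u * w) = 0 := by
      rw [sub_smul, one_smul, ← h2, sub_self]
    rcases smul_eq_zero.1 h3 with h4 | h4
    · exact hz1 (sub_eq_zero.1 h4)
    · exact mul_ne_zero hu hw h4
  have huM : u ∉ Set.range (algebraMap M R) := by
    rintro ⟨c, rfl⟩
    exact hnc y hy hyu (Algebra.commutes c y)
  have C1 : ∀ z z' : R, z * u = u * z → z' * u = u * z' → z * z' = z' * z := by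
    intro z z' h1 h2
    by_contra h3
    exact huM (Pool.Agent.H84.CY.sub_central hp5 h z z' u h3 h1.symm h2.symm)
  have C2 : ∀ w : R, w ≠ 0 → w * u = ζ • (u * w) → ∀ z : R, z * u = u * z → z * w = w * z →
      z ∈ Set.range (algebraMap M R) := by
    intro w hw h1 z h2 h3
    exact Pool.Agent.H84.CY.sub_central hp5 h u w z (hnc w hw h1) h2 h3
  -- conjugation by `y`
  have hρ : ∀ z : R, z * u = u * z → (y * z * y⁻¹) * u = u * (y * z * y⁻¹) := by
    intro z hz
    have h1 : y * u * y⁻¹ = ζ • u := by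
      rw [hyu, smul_mul_assoc, mul_assoc, mul_inv_cancel₀ hy, mul_one]
    have h2 : (y * z * y⁻¹) * (y * u * y⁻¹) = (y * u * y⁻¹) * (y * z * y⁻¹) := by
      have e1 : (y * z * y⁻¹) * (y * u * y⁻¹) = y * (z * (y⁻¹ * y) * u) * y⁻¹ := by
        simp only [mul_assoc]
      have e2 : (y * u * y⁻¹) * (y * z * y⁻¹) = y * (u * (y⁻¹ * y) * z) * y⁻¹ := by
        simp only [mul_assoc]
      rw [e1, e2, inv_mul_cancel₀ hy, mul_one, mul_one, hz]
    rw [h1, mul_smul_comm, smul_mul_assoc] at h2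
    exact smul_right_injective R hz0 h2
  have hρ' : ∀ z : R, z * u = u * z → (y⁻¹ * z * y) * u = u * (y⁻¹ * z * y) := by
    intro z hz
    have h1 : y * u = (ζ • u) * y := by
      rw [hyu, smul_mul_assoc]
    have h2 : y * ((y⁻¹ * z * y) * u) = y * (u * (y⁻¹ * z * y)) := by
      have e1 : y * ((y⁻¹ * z * y) * u) = (y * y⁻¹) * (z * (y * u)) := by
        simp only [mul_assoc]
      have e2 : y * (u * (y⁻¹ * z * y)) = (y * u) * (y⁻¹ * z * y) := by
        simp only [mul_assoc]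
      have e3 : (ζ • u) * y * (y⁻¹ * z * y) = (ζ • u) * ((y * y⁻¹) * (z * y)) := by
        simp only [mul_assoc]
      rw [e1, e2, h1, e3, mul_inv_cancel₀ hy, one_mul, one_mul, smul_mul_assoc, smul_mul_assoc,
        mul_smul_comm, ← mul_assoc, hz, mul_assoc]
    exact mul_left_cancel₀ hy h2
  -- `u` and `g y`
  have hgy : g y ≠ 0 := by
    intro h0
    apply hy
    rw [← hgg y, h0, map_zero]
  have hsm : ∀ x : R, g (ζ • x) = ζ • g x := by
    intro x
    rw [Algebra.smul_def, map_mul, hgζ, ← Algebra.smul_def]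
  have h1 : g y * g u = ζ • (g u * g y) := by
    rw [← map_mul, hyu, hsm, map_mul]
  have h2 : u * g y = ζ • (g y * u) := by
    have e1 : u * (g y * g u) * u = algebraMap M R d * (u * g y) := by
      rw [Algebra.commutes, ← hgu]
      simp only [mul_assoc]
    have e2 : u * (ζ • (g u * g y)) * u = algebraMap M R d * (ζ • (g y * u)) := by
      rw [← hgu']
      simp only [mul_smul_comm, smul_mul_assoc, mul_assoc]
    rw [h1, e2] at e1
    exact (mul_left_cancel₀ hdR e1).symm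
  obtain ⟨a, ha⟩ : ∃ a : R, a = g y * y := ⟨_, rfl⟩
  have ha0 : a ≠ 0 := by
    rw [ha]
    exact mul_ne_zero hgy hy
  have hau : a * u = u * a := by
    rw [ha, mul_assoc, hyu, mul_smul_comm, ← mul_assoc, ← smul_mul_assoc, ← h2, mul_assoc]
  have hgya : g y = a * y⁻¹ := by
    rw [ha, mul_assoc, mul_inv_cancel₀ hy, mul_one]
  obtain ⟨a1, ha1⟩ : ∃ b : R, b = y * a * y⁻¹ := ⟨_, rfl⟩
  obtain ⟨a2, ha2⟩ : ∃ b : R, b = y * a1 * y⁻¹ := ⟨_, rfl⟩
  obtain ⟨a3, ha3⟩ : ∃ b : R, b = y * a2 * y⁻¹ := ⟨_, rfl⟩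
  obtain ⟨a4, ha4⟩ : ∃ b : R, b = y * a3 * y⁻¹ := ⟨_, rfl⟩
  have hu1 : a1 * u = u * a1 := by
    rw [ha1]
    exact hρ a hau
  have hu2 : a2 * u = u * a2 := by
    rw [ha2]
    exact hρ a1 hu1
  have hu3 : a3 * u = u * a3 := by
    rw [ha3]
    exact hρ a2 hu2
  have hu4 : a4 * u = u * a4 := by
    rw [ha4]
    exact hρ a3 hu3
  -- the inverse conjugation
  have inv_conj : ∀ x z : R, x = y * z * y⁻¹ → y⁻¹ * x * y = z := by
    intro x z hx
    rw [hx]
    have e1 : y⁻¹ * (y * z * y⁻¹) * y = (y⁻¹ * y) * z * (y⁻¹ * y) := by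
      simp only [mul_assoc]
    rw [e1, inv_mul_cancel₀ hy, one_mul, mul_one]
  have y_conj : ∀ x z : R, x = y * z * y⁻¹ → x * y = y * z := by
    intro x z hx
    rw [hx, mul_assoc, inv_mul_cancel₀ hy, mul_one]
  have ha5 : a = y * a4 * y⁻¹ := by
    have e0 : y ^ 5 * a = a * y ^ 5 := by
      obtain ⟨c, hc⟩ := C2 y hy hyu (y ^ 5) (nrm_p5 hz5 hyu) (by rw [← pow_succ, ← pow_succ'])
      rw [← hc]
      exact Algebra.commutes c a
    have e1 := y_conj a1 a ha1
    have e2 := y_conj a2 a1 ha2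
    have e3 := y_conj a3 a2 ha3
    have e4 := y_conj a4 a3 ha4
    have e5 : y * a4 * y ^ 4 = a * y ^ 5 := by
      rw [← e0]
      calc y * a4 * y ^ 4 = y * (a4 * y) * y ^ 3 := by simp only [pow_succ, pow_zero, one_mul, mul_assoc]
        _ = y ^ 2 * (a3 * y) * y ^ 2 := by
            rw [e4]
            simp only [pow_succ, pow_zero, one_mul, mul_assoc]
        _ = y ^ 3 * (a2 * y) * y := by
            rw [e3]
            simp only [pow_succ, pow_zero, one_mul, mul_assoc]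
        _ = y ^ 4 * (a1 * y) := by
            rw [e2]
            simp only [pow_succ, pow_zero, one_mul, mul_assoc]
        _ = y ^ 5 * a := by
            rw [e1]
            simp only [pow_succ, pow_zero, one_mul, mul_assoc]
    have e6 : y * a4 = a * y := by
      have e7 : (y * a4) * y ^ 4 = (a * y) * y ^ 4 := by
        rw [e5, mul_assoc, ← pow_succ']
      exact mul_right_cancel₀ (pow_ne_zero 4 hy) e7
    rw [e6, mul_assoc, mul_inv_cancel₀ hy, mul_one]
  -- the action of `g`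
  have hgc : ∀ z : R, z * u = u * z → g z * u = u * g z := by
    intro z hz
    have e1 : g z * g u = g u * g z := by
      rw [← map_mul, hz, map_mul]
    have e2 : u * (g z * g u) * u = algebraMap M R d * (u * g z) := by
      rw [Algebra.commutes, ← hgu]
      simp only [mul_assoc]
    have e3 : u * (g u * g z) * u = algebraMap M R d * (g z * u) := by
      rw [← hgu']
      simp only [mul_assoc]
    rw [e1, e3] at e2
    exact mul_left_cancel₀ hdR e2
  have hgρ : ∀ z : R, z * u = u * z → g (y * z * y⁻¹) = y⁻¹ * g z * y := by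
    intro z hz
    have e1 := hρ' (g z) (hgc z hz)
    have e2 := C1 a (y⁻¹ * g z * y) hau e1
    have hay : a * y⁻¹ ≠ 0 := mul_ne_zero ha0 (inv_ne_zero hy)
    rw [map_mul, map_mul, map_inv₀, hgya]
    have e3 : (a * y⁻¹)⁻¹ = y * a⁻¹ := by
      rw [mul_inv_rev, inv_inv]
    rw [e3]
    calc a * y⁻¹ * g z * (y * a⁻¹) = (a * (y⁻¹ * g z * y)) * a⁻¹ := by
          simp only [mul_assoc]
      _ = y⁻¹ * g z * y * (a * a⁻¹) := by
          rw [e2]
          simp only [mul_assoc]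
      _ = y⁻¹ * g z * y := by rw [mul_inv_cancel₀ ha0, mul_one]
  have ga : g a = a1 := by
    rw [ha1, ha, map_mul, hgg]
    rw [mul_assoc, mul_assoc, mul_inv_cancel₀ hy, mul_one]
  have ga1 : g a1 = a := by
    rw [ha1, hgρ a hau, ga]
    exact inv_conj a1 a ha1
  have ga2 : g a2 = a4 := by
    rw [ha2, hgρ a1 hu1, ga1]
    exact inv_conj a a4 ha5
  have ga3 : g a3 = a3 := by
    rw [ha3, hgρ a2 hu2, ga2]
    rw [inv_conj a4 a3 ha4]
    exact ha3
  have ga4 : g a4 = a2 := by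
    rw [← ga2, hgg]
  have c01 := C1 a a1 hau hu1
  have c02 := C1 a a2 hau hu2
  have c03 := C1 a a3 hau hu3
  have c04 := C1 a a4 hau hu4
  have c23 := C1 a2 a3 hu2 hu3
  have c24 := C1 a2 a4 hu2 hu4
  have c34 := C1 a3 a4 hu3 hu4
  have c13 := C1 a1 a3 hu1 hu3
  have c14 := C1 a1 a4 hu1 hu4
  obtain ⟨A, hA⟩ : ∃ A : R, A = a * a1 * a2 * a3 * a4 := ⟨_, rfl⟩
  have hAu : A * u = u * A := by
    rw [hA]
    have q1 : Commute u a := hau.symm
    have q2 : Commute u a1 := hu1.symm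
    have q3 : Commute u a2 := hu2.symm
    have q4 : Commute u a3 := hu3.symm
    have q5 : Commute u a4 := hu4.symm
    exact ((((q1.mul_right q2).mul_right q3).mul_right q4).mul_right q5).symm
  have hAy : A * y = y * A := by
    have e1 := y_conj a1 a ha1
    have e2 := y_conj a2 a1 ha2
    have e3 := y_conj a3 a2 ha3
    have e4 := y_conj a4 a3 ha4
    have e5 := y_conj a a4 ha5
    have q1 : Commute a (a1 * a2 * a3 * a4) := by
      have r1 : Commute a a1 := c01
      have r2 : Commute a a2 := c02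
      have r3 : Commute a a3 := c03
      have r4 : Commute a a4 := c04
      exact ((r1.mul_right r2).mul_right r3).mul_right r4
    have e6 : A = a1 * a2 * a3 * a4 * a := by
      rw [hA, ← q1.eq]
      simp only [mul_assoc]
    rw [e6]
    calc a1 * a2 * a3 * a4 * a * y = a1 * a2 * a3 * a4 * (a * y) := by simp only [mul_assoc]
      _ = a1 * a2 * a3 * (a4 * y) * a4 := by rw [e5]; simp only [mul_assoc]
      _ = a1 * a2 * (a3 * y) * a3 * a4 := by rw [e4]; simp only [mul_assoc]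
      _ = a1 * (a2 * y) * a2 * a3 * a4 := by rw [e3]; simp only [mul_assoc]
      _ = (a1 * y) * a1 * a2 * a3 * a4 := by rw [e2]; simp only [mul_assoc]
      _ = y * (a * a1 * a2 * a3 * a4) := by rw [e1]; simp only [mul_assoc]
      _ = y * (a1 * a2 * a3 * a4 * a) := by rw [← e6, hA]
  have hne : ∀ x z : R, x = y * z * y⁻¹ → z ≠ 0 → x ≠ 0 := by
    intro x z hx hz
    rw [hx]
    exact mul_ne_zero (mul_ne_zero hy hz) (inv_ne_zero hy)
  have ha10 : a1 ≠ 0 := hne a1 a ha1 ha0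
  have ha20 : a2 ≠ 0 := hne a2 a1 ha2 ha10
  have ha30 : a3 ≠ 0 := hne a3 a2 ha3 ha20
  have ha40 : a4 ≠ 0 := hne a4 a3 ha4 ha30
  have hA0 : A ≠ 0 := by
    rw [hA]
    exact mul_ne_zero (mul_ne_zero (mul_ne_zero (mul_ne_zero ha0 ha10) ha20) ha30) ha40
  obtain ⟨α, hα⟩ := C2 y hy hyu A hAu hAy
  have hα0 : α ≠ 0 := by
    rintro rfl
    rw [map_zero] at hα
    exact hA0 hα.symm
  have hgA : g A = A := by
    rw [hA, map_mul, map_mul, map_mul, map_mul, ga, ga1, ga2, ga3, ga4]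
    have q : Commute a2 (a3 * a4) := by
      have r1 : Commute a2 a3 := c23
      have r2 : Commute a2 a4 := c24
      exact r1.mul_right r2
    calc a1 * a * a4 * a3 * a2 = (a1 * a) * ((a4 * a3) * a2) := by simp only [mul_assoc]
      _ = (a * a1) * ((a3 * a4) * a2) := by rw [c01, c34]
      _ = (a * a1) * (a2 * (a3 * a4)) := by rw [q.eq]
      _ = a * a1 * a2 * a3 * a4 := by simp only [mul_assoc]
  -- the element `y1`
  obtain ⟨y1, hy1⟩ : ∃ y1 : R, y1 = a2 * a3 * y := ⟨_, rfl⟩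
  have hy10 : y1 ≠ 0 := by
    rw [hy1]
    exact mul_ne_zero (mul_ne_zero ha20 ha30) hy
  have hy1u : y1 * u = ζ • (u * y1) := by
    have q : (a2 * a3) * u = u * (a2 * a3) := by
      rw [mul_assoc, hu3, ← mul_assoc, hu2, mul_assoc]
    rw [hy1, mul_assoc, hyu, mul_smul_comm, ← mul_assoc, q, mul_assoc]
  have hy1A : g y1 * y1 = algebraMap M R α := by
    rw [hα, hy1, map_mul, map_mul, ga2, ga3, hgya]
    have e1 := inv_conj a2 a1 ha2
    have e2 := inv_conj a3 a2 ha3
    have e3 : y⁻¹ * a2 * a3 * y = a1 * a2 := by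
      have e4 : (y⁻¹ * a2 * y) * (y⁻¹ * a3 * y) = y⁻¹ * a2 * (y * y⁻¹) * a3 * y := by
        simp only [mul_assoc]
      rw [e1, e2, mul_inv_cancel₀ hy, mul_one] at e4
      exact e4.symm
    have e5 : a4 * a3 * (a * y⁻¹) * (a2 * a3 * y) = (a4 * a3) * (a * (y⁻¹ * a2 * a3 * y)) := by
      simp only [mul_assoc]
    rw [e5, e3, hA]
    have q : Commute (a4 * a3) (a * (a1 * a2)) := by
      have r1 : Commute a4 a := (show Commute a a4 from c04).symm
      have r2 : Commute a4 a1 := (show Commute a1 a4 from c14).symm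
      have r3 : Commute a4 a2 := (show Commute a2 a4 from c24).symm
      have r4 : Commute a3 a := (show Commute a a3 from c03).symm
      have r5 : Commute a3 a1 := (show Commute a1 a3 from c13).symm
      have r6 : Commute a3 a2 := (show Commute a2 a3 from c23).symm
      exact (r1.mul_right (r2.mul_right r3)).mul_left (r4.mul_right (r5.mul_right r6))
    rw [q.eq, ← c34]
    simp only [mul_assoc]
  have hy1A' : y1 * g y1 = algebraMap M R α := nrm_swap hα0 hy1A
  have hinv : ∀ m : M, g (algebraMap M R m) = algebraMap M R m →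
      g (algebraMap M R m⁻¹) = algebraMap M R m⁻¹ := by
    intro m hm
    rw [map_inv₀, map_inv₀, hm]
  have hUU : ∀ (x : R) (m : M), m ≠ 0 → g (algebraMap M R m) = algebraMap M R m →
      x * g x = algebraMap M R m → (m⁻¹ • x ^ 2) * g (m⁻¹ • x ^ 2) = 1 := by
    intro x m hm hgm hx
    have e1 : g (m⁻¹ • x ^ 2) = m⁻¹ • (g x) ^ 2 := by
      rw [Algebra.smul_def, map_mul, hinv m hgm, ← Algebra.smul_def, map_pow]
    rw [e1, smul_mul_assoc, mul_smul_comm, smul_smul, nrm_sq hx, Algebra.smul_def, ← map_mul]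
    have e2 : m⁻¹ * m⁻¹ * m ^ 2 = 1 := by
      field_simp
    rw [e2, map_one]
  have hgα : g (algebraMap M R α) = algebraMap M R α := by
    rw [hα, hgA]
  refine ⟨d⁻¹ • u ^ 2, α⁻¹ • y1 ^ 2, hUU u d hd hgd hgu', hUU y1 α hα0 hgα hy1A', ?_, ?_, ?_⟩
  · rw [smul_mul_assoc, mul_smul_comm, nrm_sc hy1u, smul_mul_assoc, mul_smul_comm, smul_smul,
      smul_smul, smul_smul, smul_smul]
    congr 1
    ring
  · obtain ⟨c, hc⟩ := hu5
    refine ⟨(d⁻¹) ^ 5 * c ^ 2, ?_⟩
    rw [smul_pow, ← pow_mul, show 2 * 5 = 5 * 2 by norm_num, pow_mul, ← hc, ← map_pow,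
      Algebra.smul_def, ← map_mul]
  · obtain ⟨c, hc⟩ := C2 y1 hy10 hy1u (y1 ^ 5) (nrm_p5 hz5 hy1u) (by rw [← pow_succ, ← pow_succ'])
    refine ⟨(α⁻¹) ^ 5 * c ^ 2, ?_⟩
    rw [smul_pow, ← pow_mul, show 2 * 5 = 5 * 2 by norm_num, pow_mul, ← hc, ← map_pow,
      Algebra.smul_def, ← map_mul]

end Pool.Agent.H52.QC
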