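import Pool.Agent.H52.QC.Noz
import Pool.Agent.H84.CY.Dsc

/-!
# H52 QC SPT: the fifth root of `c` is in `B`

`B` a division ring, central over `E` of dimension `25`, `M / E` a finite extension with `[M : E] < 5` and
not divisible by ... (here `finrank E M ≤ 2`), `ζ` a primitive fifth root of unity in `M`, `U`, `Y` in `M ⊗ B` nonzero with
`Y U = ζ U Y`, `U ^ 5 = a`, `Y ^ 5 = b` in `M`, `c` in `E`, `c (a b - 1) = b - a`. Then `c = v ^ 5` with `v` in `B`, `v` not in `E`.

Proof. `M ⊗ B` is a domain (`Pool.Agent.H84.CY.dic_coprime`), a division ring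
(`let _ : DivisionRing (M ⊗[E] B) := divisionRingOfFiniteDimensional M _`). If `c = κ ^ 5` with `κ` in `E` then
`noz` with `P = M`, `S = M ⊗ B` gives a contradiction. So `c` is not a fifth power in `E`. Let `P / M` be a field
extension with `κ` in `P`, `κ ^ 5 = c`, `[P : M] ≤ 5` (`AdjoinRoot` of an irreducible factor of `X ^ 5 - C c` over `M`:
`Polynomial.exists_irreducible_of_natDegree_pos` ...), `[P : E] = [P : M] [M : E] ≤ 10`. `dic E B P`: if `P ⊗ B` is a
domain, push `U`, `Y` to `P ⊗ B` (`Algebra.TensorProduct.map (IsScalarTower.toAlgHom E M P) (AlgHom.id E B)`, injective: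
it is a ring homomorphism from a division ring) and apply `noz` with `S = P ⊗ B`: contradiction. Otherwise
`P ⊗ B ≃ₐ[P] Matrix (Fin 5) (Fin 5) P`, so `B` acts `E`-linearly on `V = Fin 5 → P` (as in the proof of `dic_coprime`, use
`Pool.Agent.H84.CY.dicRes`), commuting with the multiplication `ρ` by `κ`, `ρ ^ 5 = c`, and
`finrank E V = 5 * [P : E] ≤ 50` is positive, so not divisible by `125`. `Pool.Agent.H84.CY.dsc` gives `v` in `B` with `v ^ 5 = c`; `v`
is not in `E` as `c` is not a fifth power in `E`.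
-/

set_option autoImplicit false

universe u v w

open TensorProduct

namespace Pool.Agent.H52.QC

private theorem spt_noz {P : Type u} {S : Type v} [Field P] [Ring S] [IsDomain S] [Algebra P S]
    [FiniteDimensional P S] {q : P}
    (hq : IsPrimitiveRoot q 5) (U Y : S) (a b κ : P) (hU : U ≠ 0) (hY : Y ≠ 0)
    (hYU : Y * U = q • (U * Y)) (ha : U ^ 5 = algebraMap P S a) (hb : Y ^ 5 = algebraMap P S b)
    (hκ : κ ^ 5 * (a * b - 1) = b - a) : False := by
  let _ : DivisionRing S := divisionRingOfFiniteDimensional P S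
  exact noz hq U Y a b κ hU hY hYU ha hb hκ

private theorem spt_ext {M : Type u} [Field M] (c : M) :
    ∃ (P : Type u) (_ : Field P) (_ : Algebra M P) (κ : P), FiniteDimensional M P ∧
      Module.finrank M P ≤ 5 ∧ κ ^ 5 = algebraMap M P c := by
  have hdeg : (Polynomial.X ^ 5 - Polynomial.C c : Polynomial M).natDegree = 5 :=
    Polynomial.natDegree_X_pow_sub_C
  have hne : (Polynomial.X ^ 5 - Polynomial.C c : Polynomial M) ≠ 0 := by
    intro h0
    rw [h0, Polynomial.natDegree_zero] at hdeg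
    omega
  obtain ⟨g, hg, hgd⟩ := Polynomial.exists_irreducible_of_natDegree_ne_zero
    (f := (Polynomial.X ^ 5 - Polynomial.C c : Polynomial M)) (by rw [hdeg]; norm_num)
  haveI : Fact (Irreducible g) := ⟨hg⟩
  refine ⟨AdjoinRoot g, inferInstance, inferInstance, AdjoinRoot.root g,
    (AdjoinRoot.powerBasis hg.ne_zero).finite, ?_, ?_⟩
  · rw [(AdjoinRoot.powerBasis hg.ne_zero).finrank, AdjoinRoot.powerBasis_dim, ← hdeg]
    exact Polynomial.natDegree_le_of_dvd hgd hne
  · obtain ⟨k, hk⟩ := hgd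
    have h1 : Polynomial.aeval (AdjoinRoot.root g)
        (Polynomial.X ^ 5 - Polynomial.C c : Polynomial M) = 0 := by
      rw [hk, map_mul, AdjoinRoot.aeval_eq, AdjoinRoot.mk_self, zero_mul]
    rw [map_sub, map_pow, Polynomial.aeval_X, Polynomial.aeval_C, sub_eq_zero] at h1
    exact h1

theorem spt {E : Type u} {B : Type v} {M : Type u} [Field E] [DivisionRing B] [Algebra E B]
    [Algebra.IsCentral E B] [FiniteDimensional E B] (h : Module.finrank E B = 5 ^ 2)
    [Field M] [Algebra E M] [FiniteDimensional E M] (hM : Module.finrank E M ≤ 2) {ζ : M}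
    (hζ : IsPrimitiveRoot ζ 5) (U Y : M ⊗[E] B) (hU : U ≠ 0) (hY : Y ≠ 0) (hYU : Y * U = ζ • (U * Y))
    (a b : M) (ha : U ^ 5 = algebraMap M (M ⊗[E] B) a) (hb : Y ^ 5 = algebraMap M (M ⊗[E] B) b)
    (c : E) (hc : algebraMap E M c * (a * b - 1) = b - a) :
    ∃ v : B, v ∉ Set.range (algebraMap E B) ∧ v ^ 5 = algebraMap E B c := by
  classical
  have hp : Nat.Prime 5 := by norm_num
  have hMpos : 0 < Module.finrank E M := Module.finrank_pos
  have hM5 : ¬ 5 ∣ Module.finrank E M := by
    intro h0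
    have := Nat.le_of_dvd hMpos h0
    omega
  haveI : IsDomain (M ⊗[E] B) := Pool.Agent.H84.CY.dic_coprime E B M hp h hM5
  haveI : FiniteDimensional M (M ⊗[E] B) := Module.Finite.base_change E M B
  -- `c` is not a fifth power in `E`
  have hC : ∀ κ0 : E, κ0 ^ 5 ≠ c := by
    intro κ0 h0
    refine spt_noz hζ U Y a b (algebraMap E M κ0) hU hY hYU ha hb ?_
    rw [← map_pow, h0]
    exact hc
  suffices hv : ∃ v : B, v ^ 5 = algebraMap E B c by
    obtain ⟨v, hv⟩ := hv
    refine ⟨v, ?_, hv⟩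
    rintro ⟨κ0, rfl⟩
    rw [← map_pow] at hv
    exact hC κ0 ((algebraMap E B).injective hv)
  obtain ⟨P, _, _, κ, hPfin, hP5, hκ⟩ := spt_ext (algebraMap E M c)
  let _ : Algebra E P := ((algebraMap M P).comp (algebraMap E M)).toAlgebra
  haveI : IsScalarTower E M P := IsScalarTower.of_algebraMap_eq fun _ => rfl
  haveI : FiniteDimensional E P := FiniteDimensional.trans E M P
  have hEP : Module.finrank E P ≤ 10 := by
    rw [← Module.finrank_mul_finrank E M P]
    calc Module.finrank E M * Module.finrank M P ≤ 2 * 5 := Nat.mul_le_mul hM hP5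
      _ = 10 := by norm_num
  have hEPpos : 0 < Module.finrank E P := Module.finrank_pos
  have hκE : κ ^ 5 = algebraMap E P c := hκ
  rcases Pool.Agent.H84.CY.dic E B P hp h with hdom | ⟨⟨e⟩⟩
  · exfalso
    haveI := hdom
    haveI : FiniteDimensional P (P ⊗[E] B) := Module.Finite.base_change E P B
    let φ : M ⊗[E] B →ₐ[E] P ⊗[E] B :=
      Algebra.TensorProduct.map (IsScalarTower.toAlgHom E M P) (AlgHom.id E B)
    have hφa : ∀ m : M, φ (algebraMap M (M ⊗[E] B) m) =
        algebraMap P (P ⊗[E] B) (algebraMap M P m) := by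
      intro m
      rw [Algebra.TensorProduct.algebraMap_apply, Algebra.TensorProduct.algebraMap_apply]
      simp [φ]
    have hφs : ∀ (m : M) (x : M ⊗[E] B), φ (m • x) = (algebraMap M P m) • φ x := by
      intro m x
      rw [Algebra.smul_def, map_mul, hφa, ← Algebra.smul_def]
    have hφ0 : ∀ x : M ⊗[E] B, x ≠ 0 → φ x ≠ 0 := by
      intro x hx h0
      obtain ⟨x', hx', -⟩ := Pool.Agent.H84.CY.sub_inv M x hx
      have h1 := congrArg φ hx'
      rw [map_mul, h0, zero_mul, map_one] at h1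
      exact zero_ne_one h1
    refine spt_noz (P := P) (S := P ⊗[E] B) (hζ.map_of_injective (algebraMap M P).injective)
      (φ U) (φ Y) (algebraMap M P a) (algebraMap M P b) κ (hφ0 U hU) (hφ0 Y hY) ?_ ?_ ?_ ?_
    · rw [← map_mul, hYU, hφs, map_mul]
    · rw [← map_pow, ha, hφa]
    · rw [← map_pow, hb, hφa]
    · rw [hκ, ← map_mul, ← map_one (algebraMap M P), ← map_sub, ← map_mul, hc, map_sub]
  · let f1 : B →ₐ[E] (P ⊗[E] B) := Algebra.TensorProduct.includeRight
    let f2 : (P ⊗[E] B) →ₐ[E] Matrix (Fin 5) (Fin 5) P := e.toAlgHom.restrictScalars E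
    let f3 : Matrix (Fin 5) (Fin 5) P →ₐ[E] Module.End P (Fin 5 → P) :=
      (Matrix.toLinAlgEquiv' : Matrix (Fin 5) (Fin 5) P ≃ₐ[P] _).toAlgHom.restrictScalars E
    let f0 : B →ₐ[E] Module.End P (Fin 5 → P) := f3.comp (f2.comp f1)
    let f : B →ₐ[E] Module.End E (Fin 5 → P) := (Pool.Agent.H84.CY.dicRes E P 5).comp f0
    let ρ : Module.End E (Fin 5 → P) := Algebra.lsmul E E (Fin 5 → P) κ
    refine Pool.Agent.H84.CY.dsc hp h c hC f ρ ?_ ?_ ?_
    · intro d
      refine LinearMap.ext fun v => ?_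
      show f0 d (κ • v) = κ • f0 d v
      exact map_smul (f0 d) κ v
    · show (Algebra.lsmul E E (Fin 5 → P) κ) ^ 5 = _
      rw [← map_pow, hκE, AlgHom.commutes]
    · rw [Module.finrank_pi_fintype E, Finset.sum_const, Finset.card_univ, Fintype.card_fin,
        smul_eq_mul]
      intro h0
      have := Nat.le_of_dvd (by positivity) h0
      omega

end Pool.Agent.H52.QC
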