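import Pool.Agent.H52.QC.Kum
import Pool.Agent.H52.QC.Dmu
import Pool.Agent.H52.QC.Egv
import Pool.Agent.H52.QC.Nrm
import Pool.Agent.H52.QC.Spt
import Pool.Agent.H84.CY.StB

/-!
# H52 QC DIH: a De Moivre element gives a cyclic maximal subfield

Step B of the proof (table proofs, id 329).
-/

set_option autoImplicit false

universe u v w

open Polynomial TensorProduct

namespace Pool.Agent.H52.QC

open Pool.Agent.H84.CY

theorem dih_four {E : Type u} {B : Type v} [Field E] [Ring B] [IsDomain B] [Algebra E B]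
    [Algebra.IsCentral E B] [FiniteDimensional E B] (h : Module.finrank E B = 5 ^ 2) (x : B)
    (hx : x ∉ Set.range (algebraMap E B)) (a b : E) :
    x ^ 4 - a • x ^ 2 + algebraMap E B b ≠ 0 := by
  intro h3
  have h1 := sub_minpoly (k := E) (A := B) (p := 5) (by norm_num) h x hx
  have h2 : aeval x (X ^ 4 - C a * X ^ 2 + C b : E[X]) = 0 := by
    rw [map_add, map_sub, map_mul, map_pow, map_pow, aeval_X, aeval_C, aeval_C, ← Algebra.smul_def,
      h3]
  have h4 : (X ^ 4 - C a * X ^ 2 + C b : E[X]) ≠ 0 := by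
    intro h5
    have h6 := congrArg (fun q : E[X] => q.coeff 4) h5
    simp only [coeff_add, coeff_sub, coeff_X_pow, coeff_C_mul, coeff_C, coeff_zero] at h6
    norm_num at h6
  have h5 := natDegree_le_of_dvd (minpoly.dvd E x h2) h4
  have h6 : (X ^ 4 - C a * X ^ 2 + C b : E[X]).natDegree ≤ 4 := by
    compute_degree
  omega

/-- the quadratic extension -/
theorem dih_quad {E : Type u} [Field E] (s e : E) (hs : s ≠ 0) (hno : ∀ t : E, t ^ 2 - s * t + e ≠ 0) :
    ∃ (M : Type u) (_ : Field M) (_ : Algebra E M) (_ : FiniteDimensional E M) (ω : M) (τ : M ≃ₐ[E] M),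
      Module.finrank E M = 2 ∧ ω ^ 2 - algebraMap E M s * ω + algebraMap E M e = 0 ∧
      τ ω = algebraMap E M s - ω ∧ (∀ z, τ (τ z) = z) ∧
      ∀ z, τ z = z → z ∈ Set.range (algebraMap E M) := by
  set p : E[X] := X ^ 2 - C s * X + C e with hp
  have hpm : p.Monic := by
    rw [hp]
    monicity!
  have hpd : p.natDegree = 2 := by
    rw [hp]
    compute_degree!
  have hirr : Irreducible p := by
    refine (Monic.irreducible_iff_roots_eq_zero_of_degree_le_three hpm (by omega) (by omega)).mpr ?_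
    rw [Multiset.eq_zero_iff_forall_notMem]
    intro t ht
    have h1 := (mem_roots'.mp ht).2
    rw [IsRoot.def, hp] at h1
    apply hno t
    simpa using h1
  have : Fact (Irreducible p) := ⟨hirr⟩
  have : FiniteDimensional E (AdjoinRoot p) := (AdjoinRoot.powerBasis hirr.ne_zero).finite
  have hfr : Module.finrank E (AdjoinRoot p) = 2 := by
    rw [(AdjoinRoot.powerBasis hirr.ne_zero).finrank, AdjoinRoot.powerBasis_dim, hpd]
  have hae : ∀ {A : Type u} [CommRing A] [Algebra E A] (z : A),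
      aeval z p = z ^ 2 - algebraMap E A s * z + algebraMap E A e := by
    intro A _ _ z
    rw [hp, map_add, map_sub, map_mul, map_pow, aeval_X, aeval_C, aeval_C]
  set ω := AdjoinRoot.root p with hω
  have hω0 : ω ^ 2 - algebraMap E (AdjoinRoot p) s * ω + algebraMap E (AdjoinRoot p) e = 0 := by
    rw [← hae]
    exact AdjoinRoot.eval₂_root p
  -- the conjugation
  have hroot' : aeval (algebraMap E (AdjoinRoot p) s - ω) p = 0 := by
    rw [hae, ← hω0]
    ring
  let σ : AdjoinRoot p →ₐ[E] AdjoinRoot p :=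
    AdjoinRoot.liftAlgHom p (Algebra.ofId E (AdjoinRoot p)) (algebraMap E (AdjoinRoot p) s - ω) hroot'
  have hσ : σ ω = algebraMap E (AdjoinRoot p) s - ω := AdjoinRoot.liftAlgHom_root _ _ _ _
  have hspan : ∀ z : AdjoinRoot p, ∃ z0 z1 : E, z = algebraMap E _ z0 + algebraMap E _ z1 * ω := by
    intro z
    obtain ⟨q, rfl⟩ := AdjoinRoot.mk_surjective z
    have h1 : AdjoinRoot.mk p q = AdjoinRoot.mk p (q %ₘ p) := by
      rw [AdjoinRoot.mk_eq_mk]
      refine ⟨q /ₘ p, ?_⟩
      have := modByMonic_add_div q p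
      linear_combination (-1 : E[X]) * this
    have h2 : (q %ₘ p).natDegree ≤ 1 := by
      have := natDegree_modByMonic_lt q hpm (by
        intro h3
        rw [h3, natDegree_one] at hpd
        omega)
      omega
    obtain ⟨z1, z0, h3⟩ := exists_eq_X_add_C_of_natDegree_le_one h2
    refine ⟨z0, z1, ?_⟩
    rw [h1, h3, map_add, map_mul, AdjoinRoot.mk_X, AdjoinRoot.mk_C, AdjoinRoot.mk_C, add_comm]
    rfl
  have hσσ : ∀ z, σ (σ z) = z := by
    intro z
    obtain ⟨z0, z1, rfl⟩ := hspan z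
    simp only [map_add, map_mul, AlgHom.commutes, hσ, map_sub]
    ring
  let τ : AdjoinRoot p ≃ₐ[E] AdjoinRoot p :=
    AlgEquiv.ofAlgHom σ σ (AlgHom.ext hσσ) (AlgHom.ext hσσ)
  have hτ : ∀ z, τ z = σ z := fun z => rfl
  refine ⟨AdjoinRoot p, inferInstance, inferInstance, inferInstance, ω, τ, hfr, hω0, hσ,
    fun z => hσσ z, fun z hz => ?_⟩
  obtain ⟨z0, z1, rfl⟩ := hspan z
  rw [hτ, map_add, map_mul, AlgHom.commutes, AlgHom.commutes, hσ, add_right_inj] at hz
  by_cases hz1 : z1 = 0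
  · refine ⟨z0, ?_⟩
    rw [hz1, map_zero, zero_mul, add_zero]
  exfalso
  have hz1' : algebraMap E (AdjoinRoot p) z1 ≠ 0 := by
    rw [Ne, map_eq_zero]
    exact hz1
  have h2 : algebraMap E (AdjoinRoot p) s = 2 * ω := by
    have := mul_left_cancel₀ hz1' hz
    linear_combination this
  by_cases h20 : (2 : E) = 0
  · apply hs
    apply (algebraMap E (AdjoinRoot p)).injective
    rw [h2, ← map_ofNat (algebraMap E (AdjoinRoot p)) 2, h20, map_zero, zero_mul]
  · apply hno (s / 2)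
    apply (algebraMap E (AdjoinRoot p)).injective
    have h20' : (2 : AdjoinRoot p) ≠ 0 := by
      intro h3
      apply h20
      apply (algebraMap E (AdjoinRoot p)).injective
      rw [map_ofNat, map_zero, h3]
    have h3 : algebraMap E (AdjoinRoot p) (s / 2) = ω := by
      rw [map_div₀, map_ofNat, h2]
      field_simp
    rw [map_add, map_sub, map_mul, map_pow, h3, hω0, map_zero]

theorem dih {E : Type u} {B : Type v} [Field E] [DivisionRing B] [Algebra E B]
    [Algebra.IsCentral E B] [FiniteDimensional E B] (h : Module.finrank E B = 5 ^ 2) {ζ : E}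
    (hζ : IsPrimitiveRoot ζ 5) (x : B) (hx : x ∉ Set.range (algebraMap E B)) (d s : E)
    (hds : DM x d s) : Cyc5 E B := by
  have hds' := hds
  unfold DM at hds'
  have hd : d = 0 ∨ d ≠ 0 := em _
  rcases hd with hd | hd
  · refine kum hζ x hx ⟨s, ?_⟩
    rw [← hds', hd]
    simp
  have hxx : x ≠ 0 := by
    intro h0
    apply hx
    exact ⟨0, by rw [h0, map_zero]⟩
  -- `s ≠ 0`
  have hs : s ≠ 0 := by
    intro h0
    rw [h0, map_zero] at hds'
    have h1 : x * (x ^ 4 - (5 * d) • x ^ 2 + algebraMap E B (5 * d ^ 2)) = 0 := by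
      rw [← hds', Algebra.algebraMap_eq_smul_one]
      simp only [mul_add, mul_sub, mul_smul_comm, mul_one]
      rw [← pow_succ', ← pow_succ']
    exact dih_four h x hx _ _ ((mul_eq_zero.mp h1).resolve_left hxx)
  have hE4 : x ^ 4 - (3 * d) • x ^ 2 + algebraMap E B (d ^ 2) ≠ 0 := dih_four h x hx _ _
  by_cases hω : ∃ ω : E, ω ^ 2 - s * ω + d ^ 5 = 0
  · obtain ⟨ω, hω⟩ := hω
    obtain ⟨u, hux, hud, hu5, -⟩ := dmu x d s ω hds hω hE4
    refine kum hζ u ?_ ⟨ω, hu5.symm⟩
    rintro ⟨c, rfl⟩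
    apply hx
    have hc : algebraMap E B c ≠ 0 := by
      intro h0
      rw [h0, zero_mul] at hud
      exact hd ((map_eq_zero (algebraMap E B)).mp hud.symm)
    refine ⟨c + c⁻¹ * d, ?_⟩
    rw [map_add, map_mul, map_inv₀, ← hud, inv_mul_cancel_left₀ hc]
    abel
  push Not at hω
  obtain ⟨M, _, _, _, ω, τ, hM2, hω0, hτω, hττ, hτfix⟩ := dih_quad s (d ^ 5) hs hω
  have iDom : IsDomain (M ⊗[E] B) := dic_coprime E B M (p := 5) (by norm_num) h (by rw [hM2]; norm_num)
  have iCen : Algebra.IsCentral M (M ⊗[E] B) := sim_central E B M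
  have iFin : FiniteDimensional M (M ⊗[E] B) := Module.Finite.base_change E M B
  have hR : Module.finrank M (M ⊗[E] B) = 5 ^ 2 := by rw [Module.finrank_baseChange, h]
  let iDiv : DivisionRing (M ⊗[E] B) := divisionRingOfFiniteDimensional M (M ⊗[E] B)
  -- the semilinear automorphism
  obtain ⟨g, hg, hg1⟩ := stb_g (F := E) (D := B) τ
  have hga : ∀ a : M, g (algebraMap M (M ⊗[E] B) a) = algebraMap M (M ⊗[E] B) (τ a) := by
    intro a
    rw [Algebra.algebraMap_eq_smul_one, hg, map_one, Algebra.algebraMap_eq_smul_one]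
  have hgg : ∀ z, g (g z) = z := by
    intro z
    induction z using TensorProduct.induction_on with
    | zero => rw [map_zero, map_zero]
    | tmul m b =>
      have h1 : (m ⊗ₜ[E] b : M ⊗[E] B) = m • ((1 : M) ⊗ₜ[E] b) := by
        rw [TensorProduct.smul_tmul', smul_eq_mul, mul_one]
      rw [h1, hg, hg1, hg, hg1, hττ]
    | add y z hy hz => rw [map_add, map_add, hy, hz]
  -- the element `x` of the extension
  set X1 : M ⊗[E] B := (1 : M) ⊗ₜ[E] x with hX1
  have hpow : ∀ n : ℕ, X1 ^ n = (1 : M) ⊗ₜ[E] (x ^ n) := by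
    intro n
    rw [hX1, Algebra.TensorProduct.tmul_pow, one_pow]
  have hsm : ∀ (c : E) (b : B), algebraMap E M c • ((1 : M) ⊗ₜ[E] b) = (1 : M) ⊗ₜ[E] (c • b) := by
    intro c b
    rw [algebraMap_smul, TensorProduct.tmul_smul]
  have hal : ∀ c : E, algebraMap M (M ⊗[E] B) (algebraMap E M c) = (1 : M) ⊗ₜ[E] (algebraMap E B c) := by
    intro c
    rw [Algebra.algebraMap_eq_smul_one, Algebra.TensorProduct.one_def, hsm,
      Algebra.algebraMap_eq_smul_one]
  have hDM1 : DM X1 (algebraMap E M d) (algebraMap E M s) := by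
    unfold DM
    have e1 : (5 : M) * algebraMap E M d = algebraMap E M (5 * d) := by
      rw [map_mul, map_ofNat]
    have e2 : (5 : M) * algebraMap E M d ^ 2 = algebraMap E M (5 * d ^ 2) := by
      rw [map_mul, map_pow, map_ofNat]
    rw [e1, e2, hpow, hpow, hX1, hsm, hsm, hal, ← hds', TensorProduct.tmul_add, TensorProduct.tmul_sub]
  have hE41 : X1 ^ 4 - (3 * algebraMap E M d) • X1 ^ 2
      + algebraMap M (M ⊗[E] B) (algebraMap E M d ^ 2) ≠ 0 := by
    have e1 : (3 : M) * algebraMap E M d = algebraMap E M (3 * d) := by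
      rw [map_mul, map_ofNat]
    rw [e1, ← map_pow (algebraMap E M), hpow, hpow, hsm, hal, ← TensorProduct.tmul_sub,
      ← TensorProduct.tmul_add]
    intro h0
    apply hE4
    apply stb_inj (F := E) (M := M)
    simp only [h0, TensorProduct.tmul_zero]
  have hω1 : ω ^ 2 - algebraMap E M s * ω + algebraMap E M d ^ 5 = 0 := by
    rw [← map_pow]
    exact hω0
  obtain ⟨u, hux, hud, hu5, hug⟩ := dmu X1 (algebraMap E M d) (algebraMap E M s) ω hDM1 hω1 hE41
  have hgd : g (algebraMap M (M ⊗[E] B) (algebraMap E M d)) =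
      algebraMap M (M ⊗[E] B) (algebraMap E M d) := by
    rw [hga, AlgEquiv.commutes]
  have hgu : g u = X1 - u := hug g (hg1 x) hgd (by rw [hga, hτω])
  have hgu' : g u * u = algebraMap M (M ⊗[E] B) (algebraMap E M d) := by
    rw [hgu, ← hud, sub_mul, mul_sub, hux]
  have hd1 : algebraMap E M d ≠ 0 := by
    rw [Ne, map_eq_zero]
    exact hd
  have hu0 : u ≠ 0 := by
    intro h0
    rw [h0, mul_zero] at hgu'
    exact hd1 ((map_eq_zero (algebraMap M (M ⊗[E] B))).mp hgu'.symm)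
  -- an element which does not commute with `u`
  obtain ⟨b0, hb0⟩ : ∃ b : B, x * b ≠ b * x := by
    by_contra hcon
    push Not at hcon
    apply hx
    have h1 : x ∈ Subalgebra.center E B := Subalgebra.mem_center_iff.mpr fun b => (hcon b).symm
    rw [Algebra.IsCentral.center_eq_bot, Algebra.mem_bot] at h1
    exact h1
  have hub : u * ((1 : M) ⊗ₜ[E] b0) ≠ ((1 : M) ⊗ₜ[E] b0) * u := by
    intro h1
    apply hb0
    apply stb_inj (F := E) (M := M)
    have h2 : (X1 - u) = u⁻¹ * algebraMap M (M ⊗[E] B) (algebraMap E M d) := by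
      rw [← hud, inv_mul_cancel_left₀ hu0]
    have h3 : Commute u⁻¹ ((1 : M) ⊗ₜ[E] b0) := by
      have h4 : Commute u ((1 : M) ⊗ₜ[E] b0) := h1
      exact h4.inv_left₀
    have h4 : Commute (X1 - u) ((1 : M) ⊗ₜ[E] b0) := by
      rw [h2]
      exact h3.mul_left (Algebra.commutes _ _)
    have h5 : Commute X1 ((1 : M) ⊗ₜ[E] b0) := by
      have h6 := h4.add_left (show Commute u ((1 : M) ⊗ₜ[E] b0) from h1)
      rwa [sub_add_cancel] at h6
    have h6 : X1 * ((1 : M) ⊗ₜ[E] b0) = ((1 : M) ⊗ₜ[E] b0) * X1 := h5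
    rw [hX1, Algebra.TensorProduct.tmul_mul_tmul, Algebra.TensorProduct.tmul_mul_tmul, one_mul] at h6
    exact h6
  have hζM : IsPrimitiveRoot (algebraMap E M ζ) 5 :=
    hζ.map_of_injective (algebraMap E M).injective
  obtain ⟨y, hy0, hyu⟩ := egv hζM u ⟨ω, hu5.symm⟩ _ hub
  obtain ⟨U, Y, hU, hY, hYU, ⟨a, ha⟩, ⟨b, hb⟩⟩ := nrm hR hζM g hgg (by rw [hga, AlgEquiv.commutes]) u y
    (algebraMap E M d) hd1 hgd hgu' ⟨ω, hu5.symm⟩ hy0 hyu
  have hU0 : U ≠ 0 := by
    intro h0
    rw [h0, zero_mul] at hU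
    exact zero_ne_one hU
  have hY0 : Y ≠ 0 := by
    intro h0
    rw [h0, zero_mul] at hY
    exact zero_ne_one hY
  have hq : IsPrimitiveRoot (algebraMap E M ζ ^ 4) 5 := hζM.pow_of_coprime 4 (by norm_num)
  obtain ⟨hab1, hab2⟩ := noz_ne hq U Y a b hU0 hY0 hYU ha.symm hb.symm
  -- `τ a = a⁻¹`
  have hinv : ∀ (V : M ⊗[E] B) (c : M), V * g V = 1 → V ^ 5 = algebraMap M (M ⊗[E] B) c →
      c * τ c = 1 := by
    intro V c hV hc
    apply (algebraMap M (M ⊗[E] B)).injective
    rw [map_mul, ← hga, ← hc, map_pow, map_one]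
    have hV0 : V ≠ 0 := by
      intro h0
      rw [h0, zero_mul] at hV
      exact zero_ne_one hV
    have h1 : g V = V⁻¹ := eq_inv_of_mul_eq_one_right hV
    rw [h1, inv_pow, mul_inv_cancel₀ (pow_ne_zero 5 hV0)]
  have ha1 := hinv U a hU ha.symm
  have hb1 := hinv Y b hY hb.symm
  have hab0 : a * b - 1 ≠ 0 := sub_ne_zero.mpr hab1
  obtain ⟨c, hc⟩ := hτfix ((b - a) / (a * b - 1)) (by
    have ha0 : a ≠ 0 := left_ne_zero_of_mul_eq_one ha1
    have hb0 : b ≠ 0 := left_ne_zero_of_mul_eq_one hb1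
    have h1 : τ a = a⁻¹ := eq_inv_of_mul_eq_one_right ha1
    have h2 : τ b = b⁻¹ := eq_inv_of_mul_eq_one_right hb1
    rw [map_div₀, map_sub, map_sub, map_mul, map_one, h1, h2]
    have h3 : a⁻¹ * b⁻¹ - 1 ≠ 0 := by
      intro h4
      apply hab0
      have h5 : a⁻¹ * b⁻¹ = 1 := sub_eq_zero.mp h4
      rw [← mul_inv, inv_eq_one] at h5
      rw [h5, sub_self]
    rw [div_eq_div_iff h3 hab0]
    field_simp
    ring)
  obtain ⟨v, hv, hv5⟩ := spt h (le_of_eq hM2) hq U Y hU0 hY0 hYU a b ha.symm hb.symm c (by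
    rw [hc, div_mul_cancel₀ _ hab0])
  exact kum hζ v hv ⟨c, hv5.symm⟩

end Pool.Agent.H52.QC
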