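import Pool.Agent.H52.QC.Def

/-!
# H52 QC KUM: a fifth root of a scalar generates a cyclic extension

`ζ` a primitive fifth root of unity in `E`, `B` an `E`-algebra without zero divisors, `u` in `B` not in `E`,
`u ^ 5 = c` in `E`. Then `B` contains a cyclic Galois extension of `E` of degree `5`.

Proof (see `Pool.Agent.H84.CY.art_cyclic`, file H84/CY/Art.lean, for the pattern). `c` is not a fifth power in `E`: if `c = b ^ 5` then
`∏ i, (u - ζ ^ i b) = u ^ 5 - b ^ 5 = 0` (the elements commute; `IsPrimitiveRoot`, e.g. apply `aeval u` to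
`X_pow_sub_C_eq_prod` or to the factorization of `X ^ 5 - C (b ^ 5)`), so `u` is a scalar. So
`P = X ^ 5 - C c` is irreducible (`X_pow_sub_C_irreducible_of_prime`), `L = AdjoinRoot P` is a field of degree `5`,
Galois with cyclic group: `isGalois_of_isSplittingField_X_pow_sub_C`, `isCyclic_of_isSplittingField_X_pow_sub_C`,
`isSplittingField_AdjoinRoot_X_pow_sub_C` (Mathlib.FieldTheory.KummerExtension). The map `L →ₐ[E] B`:
`Ideal.Quotient.liftₐ (Ideal.span {P}) (Polynomial.aeval u) _` as in H84/CY/Dsc.lean.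
-/

set_option autoImplicit false

universe u v w

open Polynomial

namespace Pool.Agent.H52.QC

theorem kum {E : Type u} {B : Type v} [Field E] [Ring B] [IsDomain B] [Algebra E B] {ζ : E}
    (hζ : IsPrimitiveRoot ζ 5) (u : B) (hu : u ∉ Set.range (algebraMap E B))
    (hc : u ^ 5 ∈ Set.range (algebraMap E B)) : Cyc5 E B := by
  classical
  obtain ⟨c, hc⟩ := hc
  have haeval : aeval u (X ^ 5 - C c : E[X]) = 0 := by
    rw [map_sub, map_pow, aeval_X, aeval_C, hc, sub_self]
  have hint : IsIntegral E u := ⟨X ^ 5 - C c, monic_X_pow_sub_C c (by norm_num), by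
    rwa [← aeval_def]⟩
  have hnp : ∀ b : E, b ^ 5 ≠ c := by
    intro b hb
    have h1 := X_pow_sub_C_eq_prod hζ (by norm_num) hb
    have h2 : minpoly E u ∣ X ^ 5 - C c := minpoly.dvd E u haeval
    rw [h1, Prime.dvd_finsetProd_iff (minpoly.irreducible hint).prime] at h2
    obtain ⟨i, -, hi⟩ := h2
    have h3 := natDegree_le_of_dvd hi (X_sub_C_ne_zero _)
    rw [natDegree_X_sub_C] at h3
    have h4 := minpoly.natDegree_pos hint
    have h5 : (minpoly E u).natDegree = 1 := by omega
    rw [minpoly.natDegree_eq_one_iff] at h5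
    obtain ⟨e, he⟩ := h5
    exact hu ⟨e, he⟩
  have hirr : Irreducible (X ^ 5 - C c : E[X]) :=
    X_pow_sub_C_irreducible_of_prime (by norm_num) hnp
  have : Fact (Irreducible (X ^ 5 - C c : E[X])) := ⟨hirr⟩
  have hn : (primitiveRoots 5 E).Nonempty :=
    ⟨ζ, (mem_primitiveRoots (by norm_num)).mpr hζ⟩
  have hsf : IsSplittingField E (AdjoinRoot (X ^ 5 - C c : E[X])) (X ^ 5 - C c : E[X]) :=
    isSplittingField_AdjoinRoot_X_pow_sub_C hn hirr
  refine ⟨AdjoinRoot (X ^ 5 - C c : E[X]), inferInstance, inferInstance,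
    isGalois_of_isSplittingField_X_pow_sub_C hn hirr _,
    isCyclic_of_isSplittingField_X_pow_sub_C hn hirr _,
    finrank_of_isSplittingField_X_pow_sub_C hn hirr _, ⟨?_⟩⟩
  exact Ideal.Quotient.liftₐ (Ideal.span {X ^ 5 - C c}) (aeval u : E[X] →ₐ[E] B) (by
    intro g hg
    obtain ⟨q, hq⟩ := Ideal.mem_span_singleton.mp hg
    rw [hq, map_mul, haeval, zero_mul])

end Pool.Agent.H52.QC
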