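import Pool.Agent.H52.QC.Crv
import Pool.Agent.H52.QC.Dih
import Pool.Agent.H84.CY.Main

/-!
# H52 QC: assembly

`main`: `D` is cyclic, or `F` has a quadratic extension `E` such that `E ⊗ D` contains a De Moivre element and, if `F`
contains a primitive fifth root of unity, is cyclic.
-/

set_option autoImplicit false

universe u v w

open Polynomial TensorProduct

namespace Pool.Agent.H52.QC

open Pool.Agent.H84.CY

/-- `x ^ 2 - a x - b` irreducible gives a quadratic extension -/
theorem quad_ext {F : Type u} [Field F] (a b : F) (h : ∀ t : F, t ^ 2 ≠ a * t + b) :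
    ∃ (E : Type u) (_ : Field E) (_ : Algebra F E) (r : E), Module.finrank F E = 2 ∧
      r ^ 2 = algebraMap F E a * r + algebraMap F E b := by
  set p : F[X] := X ^ 2 - C a * X - C b with hp
  have hpm : p.Monic := by
    rw [hp]
    monicity!
  have hpd : p.natDegree = 2 := by
    rw [hp]
    compute_degree!
  have hirr : Irreducible p := by
    refine (Monic.irreducible_iff_roots_eq_zero_of_degree_le_three hpm (by omega) (by omega)).mpr ?_
    rw [Multiset.eq_zero_iff_forall_notMem]
    intro t ht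
    have h1 := (mem_roots'.mp ht).2
    rw [IsRoot.def, hp] at h1
    apply h t
    simp only [eval_sub, eval_pow, eval_X, eval_mul, eval_C] at h1
    linear_combination h1
  have : Fact (Irreducible p) := ⟨hirr⟩
  refine ⟨AdjoinRoot p, inferInstance, inferInstance, AdjoinRoot.root p, ?_, ?_⟩
  · rw [(AdjoinRoot.powerBasis hirr.ne_zero).finrank, AdjoinRoot.powerBasis_dim, hpd]
  · have hae : ∀ {A : Type u} [CommRing A] [Algebra F A] (z : A),
        aeval z p = z ^ 2 - algebraMap F A a * z - algebraMap F A b := by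
      intro A _ _ z
      rw [hp, map_sub, map_sub, map_mul, map_pow, aeval_X, aeval_C, aeval_C]
    have h1 : aeval (AdjoinRoot.root p) p = 0 := AdjoinRoot.eval₂_root p
    rw [hae] at h1
    linear_combination h1

/-- cyclicity of `E ⊗ D` from a De Moivre element -/
theorem cyc_of_dm {F : Type u} {D : Type v} [Field F] [DivisionRing D] [Algebra F D]
    [Algebra.IsCentral F D] [FiniteDimensional F D] (h : Module.finrank F D = 5 ^ 2) {ζ : F}
    (hζ : IsPrimitiveRoot ζ 5) (E : Type u) [Field E] [Algebra F E]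
    (hE : Module.finrank F E = 2) (y : E ⊗[F] D) (d s : E)
    (hy : y ∉ Set.range (algebraMap E (E ⊗[F] D))) (hds : DM y d s) : Cyc5 E (E ⊗[F] D) := by
  have iF : FiniteDimensional F E := Module.finite_of_finrank_pos (by omega)
  have iDom : IsDomain (E ⊗[F] D) := dic_coprime F D E (p := 5) (by norm_num) h (by
    rw [hE]; norm_num)
  have iCen : Algebra.IsCentral E (E ⊗[F] D) := sim_central F D E
  have iFin : FiniteDimensional E (E ⊗[F] D) := Module.Finite.base_change F E D
  have hR : Module.finrank E (E ⊗[F] D) = 5 ^ 2 := by rw [Module.finrank_baseChange, h]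
  let iDiv : DivisionRing (E ⊗[F] D) := divisionRingOfFiniteDimensional E (E ⊗[F] D)
  have hζE : IsPrimitiveRoot (algebraMap F E ζ) 5 :=
    hζ.map_of_injective (algebraMap F E).injective
  exact dih hR hζE y hy d s hds

theorem char5 {F : Type u} [Field F] (h50 : (5 : F) = 0) : CharP F 5 := by
  have h1 : ringChar F ∣ 5 := ringChar.dvd (by exact_mod_cast h50)
  have h2 : ringChar F ≠ 1 := CharP.ringChar_ne_one
  have h3 : ringChar F = 5 := ((Nat.dvd_prime (by norm_num)).mp h1).resolve_left h2
  exact ringChar.of_eq h3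

/-- a field without quadratic extension and with `5 ≠ 0` contains a primitive fifth root of unity -/
theorem zeta_of_quad {F : Type u} [Field F] (h5 : (5 : F) ≠ 0) (h : ∀ a b : F, ∃ t : F, t ^ 2 = a * t + b) :
    ∃ ζ : F, IsPrimitiveRoot ζ 5 := by
  obtain ⟨y, hy⟩ := h (-1) 1
  obtain ⟨z, hz⟩ := h y (-1)
  refine ⟨z, ?_⟩
  have h1 : z ^ 4 + z ^ 3 + z ^ 2 + z + 1 = 0 := by
    linear_combination (z ^ 2 + (1 + y) * z + y ^ 2 + y) * hz + (y * z - 1) * hy
  have h2 : z ^ 5 = 1 := by
    linear_combination (z - 1) * h1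
  have h3 : z ≠ 1 := by
    intro h4
    apply h5
    rw [h4] at h1
    linear_combination h1
  have : Fact (Nat.Prime 5) := ⟨by norm_num⟩
  exact IsPrimitiveRoot.iff_orderOf.mpr (orderOf_eq_prime h2 h3)

/-- a De Moivre element of `D` gives one of `E ⊗ D` -/
theorem dm_ext {F : Type u} {D : Type v} [Field F] [Ring D] [Algebra F D] (x : D) (d s : F)
    (hx : x ∉ Set.range (algebraMap F D)) (h : DM x d s) (E : Type u) [Field E] [Algebra F E] (r : E)
    (hr : r ∉ Set.range (algebraMap F E)) :
    ((1 : E) ⊗ₜ[F] x) ∉ Set.range (algebraMap E (E ⊗[F] D)) ∧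
      DM ((1 : E) ⊗ₜ[F] x) (algebraMap F E d) (algebraMap F E s) := by
  constructor
  · rintro ⟨c, hc⟩
    apply hx
    refine (ind r hr x 0 c ?_).1
    rw [hc, TensorProduct.tmul_zero, smul_zero, add_zero]
  · have hsm : ∀ (c : F) (b : D), algebraMap F E c • ((1 : E) ⊗ₜ[F] b) = (1 : E) ⊗ₜ[F] (c • b) := by
      intro c b
      rw [algebraMap_smul, TensorProduct.tmul_smul]
    unfold DM at h ⊢
    have e1 : (5 : E) * algebraMap F E d = algebraMap F E (5 * d) := by
      rw [map_mul, map_ofNat]
    have e2 : (5 : E) * algebraMap F E d ^ 2 = algebraMap F E (5 * d ^ 2) := by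
      rw [map_mul, map_pow, map_ofNat]
    have e3 : algebraMap E (E ⊗[F] D) (algebraMap F E s) = (1 : E) ⊗ₜ[F] (algebraMap F D s) := by
      rw [Algebra.algebraMap_eq_smul_one, Algebra.TensorProduct.one_def, hsm,
        Algebra.algebraMap_eq_smul_one]
    rw [e1, e2, e3, Algebra.TensorProduct.tmul_pow, Algebra.TensorProduct.tmul_pow, one_pow, one_pow,
      hsm, hsm, ← TensorProduct.tmul_sub, ← TensorProduct.tmul_add, h]

/-- the theorem -/
theorem main {F : Type u} {D : Type v} [Field F] [DivisionRing D] [Algebra F D]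
    [Algebra.IsCentral F D] [FiniteDimensional F D] (h : Module.finrank F D = 5 ^ 2) :
    Cyc5 F D ∨ ∃ (E : Type u) (_ : Field E) (_ : Algebra F E), Module.finrank F E = 2 ∧
      (∃ (y : E ⊗[F] D) (d s : E), y ∉ Set.range (algebraMap E (E ⊗[F] D)) ∧ DM y d s) ∧
      ((∃ ζ : F, IsPrimitiveRoot ζ 5) → Cyc5 E (E ⊗[F] D)) := by
  by_cases h50 : (5 : F) = 0
  · have : CharP F 5 := char5 h50
    exact Or.inl (main_five h)
  rcases crv h h50 with ⟨x, d, s, hx, hds⟩ | ⟨a, b, hab, hE⟩
  · by_cases hζ : ∃ ζ : F, IsPrimitiveRoot ζ 5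
    · obtain ⟨ζ, hζ⟩ := hζ
      exact Or.inl (dih h hζ x hx d s hds)
    · right
      obtain ⟨a, b, hab⟩ : ∃ a b : F, ∀ t : F, t ^ 2 ≠ a * t + b := by
        by_contra hcon
        push Not at hcon
        exact hζ (zeta_of_quad h50 hcon)
      obtain ⟨E, _, _, r, hE2, hr⟩ := quad_ext a b hab
      have hrF : r ∉ Set.range (algebraMap F E) := by
        rintro ⟨t, rfl⟩
        apply hab t
        apply (algebraMap F E).injective
        rw [map_pow, hr, map_add, map_mul]
      obtain ⟨h1, h2⟩ := dm_ext x d s hx hds E r hrF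
      exact ⟨E, inferInstance, inferInstance, hE2, ⟨_, _, _, h1, h2⟩, fun h3 => absurd h3 hζ⟩
  · right
    obtain ⟨E, _, _, r, hE2, hr⟩ := quad_ext a b hab
    obtain ⟨y, d, s, hy, hds⟩ := hE E r hr
    refine ⟨E, inferInstance, inferInstance, hE2, ⟨y, d, s, hy, hds⟩, ?_⟩
    rintro ⟨ζ, hζ⟩
    exact cyc_of_dm h hζ E hE2 y d s hy hds

end Pool.Agent.H52.QC
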