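import Pool.Agent.H52.QC.Def

/-!
# H52 QC NOZ: no domain

`S` a division ring, algebra over the field `P`, `q` a primitive fifth root of unity in `P`, `U`, `Y` in `S` nonzero,
`Y U = q U Y`, `U ^ 5 = a`, `Y ^ 5 = b` in `P`.

`noz`: there is no `κ` in `P` with `κ ^ 5 (a b - 1) = b - a`. `noz_ne`: `a b ≠ 1` and `a ≠ b`.

Proof. General fact (G): for `h` in `S` commuting with `Y` (say `h = (1 + κ Y) (Y + κ)⁻¹`)
`(h U) ^ 5 = h φ(h) φ^2(h) φ^3(h) φ^4(h) U ^ 5` with `φ z = U z U⁻¹`, `φ Y = q⁻¹ Y`, `φ` a ring automorphism which is the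
identity on `P`. For commuting elements `∏_{i < 5} (κ + q^(-i) Y) = κ ^ 5 + Y ^ 5` and
`∏ (1 + κ q^(-i) Y) = 1 + κ ^ 5 Y ^ 5` (e.g. `IsPrimitiveRoot.pow_sub_pow_eq_prod_sub_zeta_runity_mul` or the
identities `1 + q + q^2 + q^3 + q^4 = 0` and `ring` in a commutative subalgebra; `Algebra.adjoin P {Y}` is commutative).
`noz`: `c = κ ^ 5`. `Y + κ ≠ 0` and `1 + κ Y ≠ 0`, because otherwise `Y` commutes with `U` (if `κ = 0` the second is clear),
but `Y U = q U Y` with `q ≠ 1`. So `b + c ≠ 0`, and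
`(h U) ^ 5 = (1 + c b) / (b + c) * a = 1` as `a (1 + c b) = b + c`. So `∏_i (h U - q ^ i) = 0`
(`h U` commutes with itself), `h U = q ^ i`, `U = q ^ i h⁻¹` commutes with `Y`. Contradiction.
`noz_ne`: if `a = b` take `h = 1 - Y U⁻¹`... simpler: `(U - Y) ^ 5 = U ^ 5 - Y ^ 5` by the `q`-binomial formula:
`U - Y = (1 - W) U` with `W = Y U⁻¹`, `U W U⁻¹ = q⁻¹ W`, so
`(U - Y) ^ 5 = ∏ (1 - q^(-i) W) U ^ 5 = (1 - W ^ 5) U ^ 5`, and `W ^ 5 U ^ 5 = Y ^ 5` (again
`W ^ 5 = (Y U⁻¹) ^ 5 = q ^ (-10) Y ^ 5 U ^ (-5)`). It vanishes, so `U = Y` commutes with `Y`, contradiction. If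
`a b = 1` apply this to `Y⁻¹` in place of `Y` (`Y⁻¹ U = q⁻¹ U Y⁻¹`, `(Y⁻¹) ^ 5 = b⁻¹ = a`, `q⁻¹` is a primitive root).
-/

set_option autoImplicit false

universe u v w

open Polynomial

namespace Pool.Agent.H52.QC

theorem noz_prod {P : Type u} {S : Type v} [Field P] [Ring S] [Algebra P S] {q : P}
    (hq : IsPrimitiveRoot q 5) (Z : S) (κ : P) :
    (Z + algebraMap P S (q ^ 0 * κ)) * (Z + algebraMap P S (q ^ 1 * κ)) * (Z + algebraMap P S (q ^ 2 * κ)) *
      (Z + algebraMap P S (q ^ 3 * κ)) * (Z + algebraMap P S (q ^ 4 * κ)) = Z ^ 5 + algebraMap P S (κ ^ 5) := by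
  have h1 := X_pow_sub_C_eq_prod hq (α := -κ) (a := (-κ) ^ 5) (by norm_num) rfl
  have h2 := congrArg (aeval Z) h1
  simp only [Finset.prod_range_succ, Finset.prod_range_zero, one_mul, map_mul, map_sub, map_pow, aeval_X,
    aeval_C, map_neg] at h2
  simp only [mul_neg, sub_neg_eq_add] at h2
  have h3 : (- (algebraMap P S κ)) ^ 5 = - (algebraMap P S κ) ^ 5 := by
    rw [Odd.neg_pow (by decide)]
  rw [h3, sub_neg_eq_add] at h2
  simp only [map_mul, map_pow]
  rw [h2]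

theorem noz_five {S : Type v} [Ring S] (U V0 V1 V2 V3 V4 : S) (h0 : U * V0 = V1 * U) (h1 : U * V1 = V2 * U)
    (h2 : U * V2 = V3 * U) (h3 : U * V3 = V4 * U) :
    (V0 * U) ^ 5 = V0 * V1 * V2 * V3 * V4 * U ^ 5 := by
  calc (V0 * U) ^ 5 = V0 * (U * V0) * (U * V0) * (U * V0) * (U * V0) * U := by
        simp only [pow_succ, pow_zero, one_mul, mul_assoc]
    _ = V0 * V1 * (U * V1) * (U * V1) * (U * V1) * U * U := by
        rw [h0]; simp only [mul_assoc]
    _ = V0 * V1 * V2 * (U * V2) * (U * V2) * U * U * U := by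
        rw [h1]; simp only [mul_assoc]
    _ = V0 * V1 * V2 * V3 * (U * V3) * U * U * U * U := by
        rw [h2]; simp only [mul_assoc]
    _ = V0 * V1 * V2 * V3 * V4 * U ^ 5 := by
        rw [h3]; simp only [pow_succ, pow_zero, one_mul, mul_assoc]

theorem noz_comm {P : Type u} {S : Type v} [Field P] [DivisionRing S] [Algebra P S] {q : P}
    (hq : IsPrimitiveRoot q 5) (U Y : S) (hU : U ≠ 0) (hY : Y ≠ 0)
    (hYU : Y * U = q • (U * Y)) : Y * U ≠ U * Y := by
  intro h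
  rw [h] at hYU
  have h1 : (1 - q) • (U * Y) = 0 := by
    rw [sub_smul, one_smul, ← hYU, sub_self]
  rcases smul_eq_zero.mp h1 with h2 | h2
  · exact hq.ne_one (by norm_num) (sub_eq_zero.mp h2).symm
  · exact mul_ne_zero hU hY h2

theorem noz {P : Type u} {S : Type v} [Field P] [DivisionRing S] [Algebra P S] {q : P}
    (hq : IsPrimitiveRoot q 5) (U Y : S) (a b κ : P) (hU : U ≠ 0) (hY : Y ≠ 0)
    (hYU : Y * U = q • (U * Y)) (ha : U ^ 5 = algebraMap P S a) (hb : Y ^ 5 = algebraMap P S b)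
    (hκ : κ ^ 5 * (a * b - 1) = b - a) : False := by
  have hnc := noz_comm hq U Y hU hY hYU
  have hq0 : q ≠ 0 := hq.ne_zero (by norm_num)
  have hq5 := hq.pow_eq_one
  have hcom : ∀ (c : P) (z : S), algebraMap P S c * z = z * algebraMap P S c := fun c z =>
    Algebra.commutes c z
  have hUY : U * Y = q⁻¹ • (Y * U) := by
    rw [hYU, smul_smul, inv_mul_cancel₀ hq0, one_smul]
  -- the factors
  set A : ℕ → S := fun i => Y + algebraMap P S (q ^ i * κ) with hA
  set B : ℕ → S := fun i => κ • Y + algebraMap P S (q ^ i * 1) with hB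
  have hUA : ∀ i, U * A i = q⁻¹ • (A (i + 1) * U) := by
    intro i
    simp only [hA]
    rw [mul_add, hUY, add_mul, smul_add, ← hcom, ← Algebra.smul_def, ← Algebra.smul_def, smul_smul]
    congr 2
    rw [pow_succ]
    field_simp
  have hUB : ∀ i, U * B i = q⁻¹ • (B (i + 1) * U) := by
    intro i
    simp only [hB]
    rw [mul_add, mul_smul_comm, hUY, add_mul, smul_add, ← hcom, ← Algebra.smul_def, ← Algebra.smul_def,
      smul_smul, smul_mul_assoc, smul_smul, smul_smul]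
    congr 2
    · rw [mul_comm]
    · rw [pow_succ]
      field_simp
  have hYA : ∀ i, Y * A i = A i * Y := by
    intro i
    simp only [hA]
    rw [mul_add, add_mul, hcom]
  have hYB : ∀ i, Y * B i = B i * Y := by
    intro i
    simp only [hB]
    rw [mul_add, add_mul, hcom, mul_smul_comm, smul_mul_assoc]
  -- they do not vanish
  have hA0 : ∀ i, A i ≠ 0 := by
    intro i h0
    apply hnc
    have h1 : Y = - algebraMap P S (q ^ i * κ) := eq_neg_of_add_eq_zero_left h0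
    rw [h1, neg_mul, mul_neg, hcom]
  have hB0 : ∀ i, B i ≠ 0 := by
    intro i h0
    have hκ0 : κ ≠ 0 := by
      rintro rfl
      simp only [hB] at h0
      rw [zero_smul, zero_add, mul_one, map_pow] at h0
      have h3 : algebraMap P S q ≠ 0 := by
        rw [Ne, map_eq_zero]
        exact hq0
      exact pow_ne_zero i h3 h0
    apply hnc
    have h1 : κ • Y = - algebraMap P S (q ^ i * 1) := eq_neg_of_add_eq_zero_left h0
    have h2 : κ • (Y * U) = κ • (U * Y) := by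
      rw [← smul_mul_assoc, ← mul_smul_comm, h1, neg_mul, mul_neg, hcom]
    exact smul_right_injective S hκ0 h2
  have hAB : ∀ i j, A i * B j = B j * A i := by
    intro i j
    have e1 : Commute Y (κ • Y + algebraMap P S (q ^ j * 1)) :=
      ((Commute.refl Y).smul_right κ).add_right (hcom _ _).symm
    exact e1.add_left (hcom _ _)
  have hAA : ∀ i j, A i * A j = A j * A i := by
    intro i j
    have e1 : Commute Y (Y + algebraMap P S (q ^ j * κ)) :=
      (Commute.refl Y).add_right (hcom _ _).symm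
    exact e1.add_left (hcom _ _)
  set V : ℕ → S := fun i => B i * (A i)⁻¹ with hV
  have hUAi : ∀ i, U * (A i)⁻¹ = q • ((A (i + 1))⁻¹ * U) := by
    intro i
    have h1 := hUA i
    have h2 : A (i + 1) * (U * (A i)⁻¹) = A (i + 1) * (q • ((A (i + 1))⁻¹ * U)) := by
      rw [mul_smul_comm, mul_inv_cancel_left₀ (hA0 _), ← mul_assoc]
      have h3 : A (i + 1) * U = q • (U * A i) := by
        rw [h1, smul_smul, mul_inv_cancel₀ hq0, one_smul]
      rw [h3, smul_mul_assoc, mul_assoc, mul_inv_cancel₀ (hA0 _), mul_one]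
    exact mul_left_cancel₀ (hA0 _) h2
  have hUV : ∀ i, U * V i = V (i + 1) * U := by
    intro i
    simp only [hV]
    rw [← mul_assoc, hUB, smul_mul_assoc, mul_assoc, hUAi, mul_smul_comm, smul_smul,
      inv_mul_cancel₀ hq0, one_smul, ← mul_assoc]
  have h5 := noz_five U (V 0) (V 1) (V 2) (V 3) (V 4) (hUV 0) (hUV 1) (hUV 2) (hUV 3)
  have pA := noz_prod hq Y κ
  have pB := noz_prod hq (κ • Y) 1
  -- the product of the `V i`
  have hprod : V 0 * V 1 * V 2 * V 3 * V 4 * (A 0 * A 1 * A 2 * A 3 * A 4)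
      = B 0 * B 1 * B 2 * B 3 * B 4 := by
    have c1 : ∀ i, V i * A i = B i := by
      intro i
      simp only [hV]
      rw [mul_assoc, inv_mul_cancel₀ (hA0 i), mul_one]
    have c2 : ∀ i j, V i * A j = A j * V i := by
      intro i j
      have e1 : Commute (A j) (B i) := hAB j i
      have e2 : Commute (A j) (A i)⁻¹ := (show Commute (A j) (A i) from hAA j i).inv_right₀
      exact (e1.mul_right e2).symm
    have c3 : ∀ i j, B i * A j = A j * B i := fun i j => (hAB j i).symm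
    have c4 : ∀ i j, B i * V j = V j * B i := by
      intro i j
      have e1 : Commute (B i) (B j) := by
        simp only [hB]
        refine Commute.add_left (Commute.add_right ?_ ?_) ?_
        · exact Commute.refl _
        · exact (hcom _ _).symm
        · exact hcom _ _
      have e2 : Commute (B i) (A j)⁻¹ := (show Commute (B i) (A j) from c3 i j).inv_right₀
      exact e1.mul_right e2
    calc V 0 * V 1 * V 2 * V 3 * V 4 * (A 0 * A 1 * A 2 * A 3 * A 4)
        = V 0 * V 1 * V 2 * V 3 * (V 4 * A 0) * A 1 * A 2 * A 3 * A 4 := by simp only [mul_assoc]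
      _ = V 0 * V 1 * V 2 * (V 3 * A 0) * (V 4 * A 1) * A 2 * A 3 * A 4 := by
          rw [c2 4 0]; simp only [mul_assoc]
      _ = V 0 * V 1 * (V 2 * A 0) * (V 3 * A 1) * (V 4 * A 2) * A 3 * A 4 := by
          rw [c2 3 0, c2 4 1]; simp only [mul_assoc]
      _ = V 0 * (V 1 * A 0) * (V 2 * A 1) * (V 3 * A 2) * (V 4 * A 3) * A 4 := by
          rw [c2 2 0, c2 3 1, c2 4 2]; simp only [mul_assoc]
      _ = (V 0 * A 0) * (V 1 * A 1) * (V 2 * A 2) * (V 3 * A 3) * (V 4 * A 4) := by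
          rw [c2 1 0, c2 2 1, c2 3 2, c2 4 3]; simp only [mul_assoc]
      _ = B 0 * B 1 * B 2 * B 3 * B 4 := by rw [c1, c1, c1, c1, c1]
  have hrel : a * (κ ^ 5 * b + 1) = b + κ ^ 5 := by linear_combination hκ
  have hpA : A 0 * A 1 * A 2 * A 3 * A 4 = algebraMap P S (b + κ ^ 5) := by
    rw [map_add, ← hb]
    exact pA
  have hpB : B 0 * B 1 * B 2 * B 3 * B 4 = algebraMap P S (κ ^ 5 * b + 1) := by
    rw [map_add, map_mul, ← hb, ← Algebra.smul_def, ← _root_.smul_pow]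
    rw [one_pow] at pB
    exact pB
  have hnz : algebraMap P S (b + κ ^ 5) ≠ 0 := by
    rw [← hpA]
    exact mul_ne_zero (mul_ne_zero (mul_ne_zero (mul_ne_zero (hA0 0) (hA0 1)) (hA0 2)) (hA0 3)) (hA0 4)
  have h6 : (V 0 * U) ^ 5 = 1 := by
    rw [h5, ha]
    have h7 : V 0 * V 1 * V 2 * V 3 * V 4 * algebraMap P S a * algebraMap P S (b + κ ^ 5)
        = algebraMap P S (b + κ ^ 5) := by
      rw [mul_assoc, hcom, ← mul_assoc, ← hpA, hprod, hpB, ← map_mul, hpA, ← hrel, mul_comm]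
    exact mul_right_cancel₀ hnz (by rw [h7, one_mul])
  -- `V 0 * U` is a root of unity
  have h7 := noz_prod hq (V 0 * U) (-1)
  rw [h6, Odd.neg_one_pow (by decide), map_neg, map_one, add_neg_cancel] at h7
  have h8 : ∃ i : ℕ, V 0 * U + algebraMap P S (q ^ i * (-1)) = 0 := by
    rcases mul_eq_zero.mp h7 with h | h
    · rcases mul_eq_zero.mp h with h | h
      · rcases mul_eq_zero.mp h with h | h
        · rcases mul_eq_zero.mp h with h | h
          · exact ⟨0, h⟩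
          · exact ⟨1, h⟩
        · exact ⟨2, h⟩
      · exact ⟨3, h⟩
    · exact ⟨4, h⟩
  obtain ⟨i, hi⟩ := h8
  have h9 : V 0 * U = - algebraMap P S (q ^ i * (-1)) := eq_neg_of_add_eq_zero_left hi
  have hV0 : V 0 ≠ 0 := mul_ne_zero (hB0 0) (inv_ne_zero (hA0 0))
  apply hnc
  have hYV : Y * V 0 = V 0 * Y := by
    have e1 : Commute Y (B 0) := hYB 0
    have e2 : Commute Y (A 0)⁻¹ := (show Commute Y (A 0) from hYA 0).inv_right₀
    exact e1.mul_right e2
  have h10 : V 0 * (Y * U) = V 0 * (U * Y) := by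
    rw [← mul_assoc, ← hYV, mul_assoc, h9, ← mul_assoc, h9, mul_neg, neg_mul, hcom]
  exact mul_left_cancel₀ hV0 h10

theorem noz_eq {P : Type u} {S : Type v} [Field P] [DivisionRing S] [Algebra P S] {q : P}
    (hq : IsPrimitiveRoot q 5) (U Y : S) (a : P) (hU : U ≠ 0) (hY : Y ≠ 0)
    (hYU : Y * U = q • (U * Y)) (ha : U ^ 5 = algebraMap P S a) (hb : Y ^ 5 = algebraMap P S a) :
    False := by
  have hnc := noz_comm hq U Y hU hY hYU
  have hq0 : q ≠ 0 := hq.ne_zero (by norm_num)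
  have hq5 := hq.pow_eq_one
  have hcom : ∀ (c : P) (z : S), algebraMap P S c * z = z * algebraMap P S c := fun c z =>
    Algebra.commutes c z
  have hUY : U * Y = q⁻¹ • (Y * U) := by
    rw [hYU, smul_smul, inv_mul_cancel₀ hq0, one_smul]
  set W : S := Y * U⁻¹ with hW
  have hWU : W * U = Y := by
    rw [hW, mul_assoc, inv_mul_cancel₀ hU, mul_one]
  have hUW : U * W = q⁻¹ • (W * U) := by
    rw [hWU, hW, ← mul_assoc, hUY, smul_mul_assoc, mul_assoc, mul_inv_cancel₀ hU, mul_one]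
  -- the factors
  set A : ℕ → S := fun i => W + algebraMap P S (q ^ i * (-1)) with hA
  have hUA : ∀ i, U * ((q⁻¹) ^ i • A i) = ((q⁻¹) ^ (i + 1) • A (i + 1)) * U := by
    intro i
    simp only [hA]
    rw [mul_smul_comm, smul_mul_assoc, pow_succ, ← smul_smul]
    congr 1
    rw [mul_add, hUW, add_mul, smul_add, ← hcom, ← Algebra.smul_def, ← Algebra.smul_def, smul_smul]
    congr 2
    rw [pow_succ]
    field_simp
  have h5 := noz_five U ((q⁻¹) ^ 0 • A 0) ((q⁻¹) ^ 1 • A 1) ((q⁻¹) ^ 2 • A 2) ((q⁻¹) ^ 3 • A 3)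
    ((q⁻¹) ^ 4 • A 4) (hUA 0) (hUA 1) (hUA 2) (hUA 3)
  have hUW' : ∀ i : ℕ, U * ((q⁻¹) ^ i • W) = ((q⁻¹) ^ (i + 1) • W) * U := by
    intro i
    rw [mul_smul_comm, smul_mul_assoc, pow_succ, ← smul_smul, hUW]
  have h6 := noz_five U ((q⁻¹) ^ 0 • W) ((q⁻¹) ^ 1 • W) ((q⁻¹) ^ 2 • W) ((q⁻¹) ^ 3 • W)
    ((q⁻¹) ^ 4 • W) (hUW' 0) (hUW' 1) (hUW' 2) (hUW' 3)
  have pA := noz_prod hq W (-1)
  have hq10 : (q⁻¹) ^ 10 = 1 := by
    rw [inv_pow, show (10 : ℕ) = 5 * 2 from rfl, pow_mul, hq5, one_pow, inv_one]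
  have e1 : ∀ B0 B1 B2 B3 B4 : S, ((q⁻¹) ^ 0 • B0) * ((q⁻¹) ^ 1 • B1) * ((q⁻¹) ^ 2 • B2) *
      ((q⁻¹) ^ 3 • B3) * ((q⁻¹) ^ 4 • B4) = B0 * B1 * B2 * B3 * B4 := by
    intro B0 B1 B2 B3 B4
    simp only [smul_mul_assoc, mul_smul_comm, smul_smul, ← pow_add]
    rw [show 0 + (1 + (2 + (3 + 4))) = 10 from rfl] at *
    rw [hq10, one_smul]
  rw [e1] at h5 h6
  have h7 : (W * U) ^ 5 = W ^ 5 * U ^ 5 := by
    rw [pow_zero, one_smul] at h6
    rw [h6]
    simp only [pow_succ, pow_zero, one_mul, mul_assoc]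
  rw [hWU] at h7
  have h8 : (A 0 * U) ^ 5 = 0 := by
    rw [pow_zero, one_smul] at h5
    have h9 : A 0 * A 1 * A 2 * A 3 * A 4 = W ^ 5 + algebraMap P S ((-1) ^ 5) := pA
    rw [h5, h9, add_mul, ← h7, ha, hb, Odd.neg_one_pow (by decide), map_neg, map_one, neg_one_mul,
      add_neg_cancel]
  have h9 : A 0 = 0 := (mul_eq_zero.mp (pow_eq_zero_iff (by norm_num) |>.mp h8)).resolve_right hU
  have h10 : W = 1 := by
    simp only [hA] at h9
    rw [pow_zero, one_mul, map_neg, map_one, ← sub_eq_add_neg] at h9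
    exact sub_eq_zero.mp h9
  apply hnc
  rw [← hWU, h10, one_mul]

theorem noz_ne {P : Type u} {S : Type v} [Field P] [DivisionRing S] [Algebra P S] {q : P}
    (hq : IsPrimitiveRoot q 5) (U Y : S) (a b : P) (hU : U ≠ 0) (hY : Y ≠ 0)
    (hYU : Y * U = q • (U * Y)) (ha : U ^ 5 = algebraMap P S a) (hb : Y ^ 5 = algebraMap P S b) :
    a * b ≠ 1 ∧ a ≠ b := by
  have hq0 : q ≠ 0 := hq.ne_zero (by norm_num)
  constructor
  · intro hab
    have hb0 : b ≠ 0 := right_ne_zero_of_mul_eq_one hab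
    refine noz_eq (q := q⁻¹) hq.inv U Y⁻¹ a hU (inv_ne_zero hY) ?_ ha ?_
    · have h1 : Y * (Y⁻¹ * U) = Y * (q⁻¹ • (U * Y⁻¹)) := by
        rw [mul_inv_cancel_left₀ hY, mul_smul_comm, ← mul_assoc, hYU, smul_mul_assoc, mul_assoc,
          mul_inv_cancel₀ hY, mul_one, smul_smul, inv_mul_cancel₀ hq0, one_smul]
      exact mul_left_cancel₀ hY h1
    · rw [inv_pow, hb, ← map_inv₀]
      congr 1
      exact (eq_inv_of_mul_eq_one_left hab).symm
  · rintro rfl
    exact noz_eq hq U Y a hU hY hYU ha hb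

end Pool.Agent.H52.QC
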